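import Mathlib

/-!
# Real inequalities for the Steiner ratio lower bound
-/

namespace Pool.Agent.Helper77.Steiner

open Real Finset

/-- The constant `(4 - √2)/√3`. -/
noncomputable def cst : ℝ := (4 - √2) / √3

lemma sq2 : √2 ^ 2 = (2 : ℝ) := Real.sq_sqrt (by norm_num)

lemma sqrt2_lt : √2 < (1.4143 : ℝ) := by
  rw [Real.sqrt_lt' (by norm_num)]; norm_num

lemma sqrt2_gt : (1.4142 : ℝ) < √2 := by
  rw [Real.lt_sqrt (by norm_num)]; norm_num

lemma cst_pos : 0 < cst := by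
  unfold cst
  have := sqrt2_lt
  apply div_pos (by linarith) (by positivity)

lemma cst_sq : cst ^ 2 / 2 = 3 - 4 * √2 / 3 := by
  unfold cst
  rw [div_pow, Real.sq_sqrt (by norm_num : (0:ℝ) ≤ 3)]
  have := sq2
  nlinarith

lemma cst_sq_ge : 2 ≤ cst ^ 2 := by
  have h := cst_sq
  have := sqrt2_lt
  linarith

/-- The summation lemma. -/
lemma sum_sq_le (t g Γ : ℕ → ℝ) (ht0 : t 0 = 0) (ht : Monotone t) (K : ℕ)
    (h : ∀ i j, i ≤ j → j < K → g i * g j ≤ Γ j) :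
    (∑ j ∈ range K, (t (j + 1) - t j) * g j) ^ 2 ≤
      ∑ j ∈ range K, (t (j + 1) ^ 2 - t j ^ 2) * Γ j := by
  induction K with
  | zero => simp
  | succ K ih =>
    rw [sum_range_succ, sum_range_succ]
    have ih' := ih (fun i j hij hj => h i j hij (by omega))
    set S := ∑ j ∈ range K, (t (j + 1) - t j) * g j with hS
    have h1 : S * g K ≤ t K * Γ K := by
      have : t K = ∑ j ∈ range K, (t (j + 1) - t j) := by
        rw [Finset.sum_range_sub, ht0, sub_zero]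
      rw [hS, this, sum_mul, sum_mul]
      apply sum_le_sum
      intro i hi
      rw [mem_range] at hi
      have := h i K hi.le (by omega)
      have h2 : 0 ≤ t (i + 1) - t i := sub_nonneg.2 (ht (Nat.le_succ i))
      calc (t (i + 1) - t i) * g i * g K = (t (i + 1) - t i) * (g i * g K) := by ring
        _ ≤ _ := mul_le_mul_of_nonneg_left this h2
    have h2 : g K * g K ≤ Γ K := h K K le_rfl (by omega)
    have h3 : 0 ≤ t (K + 1) - t K := sub_nonneg.2 (ht (Nat.le_succ K))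
    nlinarith [mul_le_mul_of_nonneg_left h1 h3, mul_le_mul_of_nonneg_left h2 (mul_nonneg h3 h3)]

lemma sqrt_add_ge (a b : ℝ) : (a + b) * (√2 / 2) ≤ √(a ^ 2 + b ^ 2) := by
  apply Real.le_sqrt_of_sq_le
  have := sq2
  nlinarith [sq_nonneg (a - b), sq_nonneg (a + b)]

/-- Linear bound for the unpenalised gain. -/
lemma gain_le (p q y1 y2 k : ℝ) (hp : 0 ≤ p) (hq : 0 ≤ q) (hk : 0 ≤ k) :
    y1 + y2 - √(p ^ 2 * y1 ^ 2 + q ^ 2 * y2 ^ 2 + 2 * p * q * k) ≤
      y1 * (1 - p * (√2 / 2)) + y2 * (1 - q * (√2 / 2)) := by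
  have h1 := sqrt_add_ge (p * y1) (q * y2)
  have h2 : √((p * y1) ^ 2 + (q * y2) ^ 2) ≤
      √(p ^ 2 * y1 ^ 2 + q ^ 2 * y2 ^ 2 + 2 * p * q * k) := by
    apply Real.sqrt_le_sqrt
    have : 0 ≤ p * q * k := by positivity
    nlinarith
  nlinarith

/-- The constant inequality. -/
lemma lin_sq (p q y1 y2 : ℝ) (hp : 0 ≤ p) (hq : 0 ≤ q) (hpq : p + q = 1) :
    (y1 * (1 - p * (√2 / 2)) + y2 * (1 - q * (√2 / 2))) ^ 2 ≤
      cst ^ 2 / 2 * (1 - p * q) * (y1 ^ 2 + y2 ^ 2) := by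
  rw [cst_sq]
  have h2 := sq2
  have hlt := sqrt2_lt
  have hgt := sqrt2_gt
  set s := √2
  have hq' : q = 1 - p := by linarith
  subst hq'
  -- Cauchy-Schwarz
  have hcs : (y1 * (1 - p * (s / 2)) + y2 * (1 - (1 - p) * (s / 2))) ^ 2 ≤
      (y1 ^ 2 + y2 ^ 2) * ((1 - p * (s / 2)) ^ 2 + (1 - (1 - p) * (s / 2)) ^ 2) := by
    nlinarith [sq_nonneg (y1 * (1 - (1 - p) * (s / 2)) - y2 * (1 - p * (s / 2)))]
  have hc : (1 - p * (s / 2)) ^ 2 + (1 - (1 - p) * (s / 2)) ^ 2 ≤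
      (3 - 4 * s / 3) * (1 - p * (1 - p)) := by
    have e1 : (1 - p * (s / 2)) ^ 2 + (1 - (1 - p) * (s / 2)) ^ 2 =
        2 - s + (p ^ 2 + (1 - p) ^ 2) * s ^ 2 / 4 := by ring
    rw [e1, h2]
    have : 0 ≤ (2 - 4 * s / 3) * (2 * p - 1) ^ 2 := by
      apply mul_nonneg _ (sq_nonneg _)
      linarith
    nlinarith
  calc _ ≤ (y1 ^ 2 + y2 ^ 2) * ((1 - p * (s / 2)) ^ 2 + (1 - (1 - p) * (s / 2)) ^ 2) := hcs
    _ ≤ (y1 ^ 2 + y2 ^ 2) * ((3 - 4 * s / 3) * (1 - p * (1 - p))) :=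
        mul_le_mul_of_nonneg_left hc (by positivity)
    _ = _ := by ring

/-- The gain at one level, `b = 1` if the classes meet (`k > 0`), and `0` otherwise. -/
noncomputable def gain (p q y1 y2 k : ℝ) : ℝ :=
  y1 + y2 - √(p ^ 2 * y1 ^ 2 + q ^ 2 * y2 ^ 2 + 2 * p * q * k) - (if 0 < k then 1 else 0)

lemma gain_le' (p q y1 y2 k : ℝ) (hp : 0 ≤ p) (hq : 0 ≤ q) (hk : 0 ≤ k) :
    gain p q y1 y2 k ≤ y1 * (1 - p * (√2 / 2)) + y2 * (1 - q * (√2 / 2)) := by
  have h := gain_le p q y1 y2 k hp hq hk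
  unfold gain
  split_ifs <;> linarith

lemma gain_le'' (p q y1 y2 k : ℝ) :
    gain p q y1 y2 k ≤ y1 + y2 := by
  have h := Real.sqrt_nonneg (p ^ 2 * y1 ^ 2 + q ^ 2 * y2 ^ 2 + 2 * p * q * k)
  unfold gain
  split_ifs <;> linarith

/-- Inequality (H). -/
lemma pair_ineq (p q x1 x2 k0 y1 y2 k : ℝ) (hp : 0 < p) (hq : 0 < q) (hpq : p + q = 1)
    (hk0 : 0 ≤ k0) (hx1' : x1 ≤ y1) (hx2' : x2 ≤ y2)
    (hkk : k0 ≤ k) (hy1 : y1 ≤ 1) (hy2 : y2 ≤ 1) (hx1 : 0 ≤ x1) (hx2 : 0 ≤ x2)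
    (hk : k ≤ y1 * y2) :
    max (gain p q x1 x2 k0) 0 * max (gain p q y1 y2 k) 0 ≤
      cst ^ 2 / 2 * (1 - p * q) * (y1 ^ 2 + y2 ^ 2 - 2 * k) := by
  have hy10 : 0 ≤ y1 := hx1.trans hx1'
  have hy20 : 0 ≤ y2 := hx2.trans hx2'
  have hp1 : p ≤ 1 := by linarith
  have hq1 : q ≤ 1 := by linarith
  have hlt := sqrt2_lt
  have hgt := sqrt2_gt
  have hpq1 : p * q ≤ 1 := by nlinarith
  have hc2 := cst_sq_ge
  have hk0' : 0 ≤ k := hk0.trans hkk
  have hcoef1 : 0 ≤ 1 - p * (√2 / 2) := by nlinarith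
  have hcoef2 : 0 ≤ 1 - q * (√2 / 2) := by nlinarith
  by_cases hkpos : 0 < k
  · -- penalised case
    have hy1pos : 0 < y1 := by
      rcases hy10.lt_or_eq with h | h
      · exact h
      · rw [← h] at hk; linarith
    have hy2pos : 0 < y2 := by
      rcases hy20.lt_or_eq with h | h
      · exact h
      · rw [← h] at hk; linarith
    set Y := p * y1 + q * y2 with hY
    have hYpos : 0 < Y := by positivity
    set η := y1 * y2 - k with hη
    have hη0 : 0 ≤ η := by linarith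
    have hroot : p ^ 2 * y1 ^ 2 + q ^ 2 * y2 ^ 2 + 2 * p * q * k = Y ^ 2 - 2 * p * q * η := by
      rw [hY, hη]; ring
    have hnn : 0 ≤ Y ^ 2 - 2 * p * q * η := by rw [← hroot]; positivity
    set R := √(Y ^ 2 - 2 * p * q * η) with hR
    have hR0 : 0 ≤ R := Real.sqrt_nonneg _
    have hR2 : R ^ 2 = Y ^ 2 - 2 * p * q * η := Real.sq_sqrt hnn
    have hRY : R ≤ Y := by
      apply Real.sqrt_le_iff.2 ⟨hYpos.le, _⟩
      have : 0 ≤ 2 * p * q * η := by positivity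
      linarith
    have hmin : y1 + y2 - 1 ≤ Y := by
      have e : Y - (y1 + y2 - 1) = q * (1 - y1) + p * (1 - y2) := by
        have hq' : q = 1 - p := by linarith
        rw [hY, hq']
        ring
      have h1 : 0 ≤ q * (1 - y1) := mul_nonneg hq.le (by linarith)
      have h2 : 0 ≤ p * (1 - y2) := mul_nonneg hp.le (by linarith)
      linarith
    have hg : gain p q y1 y2 k ≤ Y - R := by
      unfold gain
      rw [hroot, if_pos hkpos]
      linarith
    have hgj : max (gain p q y1 y2 k) 0 ≤ Y - R := max_le hg (by linarith)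
    have hgj2 : (Y - R) * Y ≤ 2 * p * q * η := by nlinarith
    have hgi : max (gain p q x1 x2 k0) 0 ≤ y1 + y2 :=
      max_le ((gain_le'' _ _ _ _ _).trans (by linarith)) (by linarith)
    have hgj0 : 0 ≤ max (gain p q y1 y2 k) 0 := le_max_right _ _
    have h1 : max (gain p q x1 x2 k0) 0 * max (gain p q y1 y2 k) 0 ≤ (y1 + y2) * (Y - R) :=
      mul_le_mul hgi hgj hgj0 (by linarith)
    have h2 : 2 * p * q * (y1 + y2) ≤ 2 * (1 - p * q) * Y := by
      have e : 2 * (1 - p * q) * Y - 2 * p * q * (y1 + y2) = 2 * p ^ 3 * y1 + 2 * q ^ 3 * y2 := by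
        have hq' : q = 1 - p := by linarith
        rw [hY, hq']
        ring
      have : 0 ≤ 2 * p ^ 3 * y1 + 2 * q ^ 3 * y2 := by positivity
      linarith
    have h3 : (y1 + y2) * (Y - R) * Y ≤ (cst ^ 2 / 2 * (1 - p * q) * (y1 ^ 2 + y2 ^ 2 - 2 * k)) * Y := by
      have hD : 2 * η ≤ y1 ^ 2 + y2 ^ 2 - 2 * k := by
        rw [hη]; nlinarith [sq_nonneg (y1 - y2)]
      calc (y1 + y2) * (Y - R) * Y = (y1 + y2) * ((Y - R) * Y) := by ring
        _ ≤ (y1 + y2) * (2 * p * q * η) := mul_le_mul_of_nonneg_left hgj2 (by linarith)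
        _ = (2 * p * q * (y1 + y2)) * η := by ring
        _ ≤ (2 * (1 - p * q) * Y) * η := mul_le_mul_of_nonneg_right h2 hη0
        _ = (1 * (1 - p * q) * (2 * η)) * Y := by ring
        _ ≤ (cst ^ 2 / 2 * (1 - p * q) * (y1 ^ 2 + y2 ^ 2 - 2 * k)) * Y := by
            apply mul_le_mul_of_nonneg_right _ hYpos.le
            apply mul_le_mul _ hD (by linarith) _
            · exact mul_le_mul_of_nonneg_right (by linarith) (by linarith)
            · exact mul_nonneg (by linarith) (by linarith)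
    have h4 := le_of_mul_le_mul_right h3 hYpos
    exact h1.trans h4
  · have hk00 : k = 0 := le_antisymm (not_lt.1 hkpos) hk0'
    subst hk00
    have hk0z : k0 = 0 := le_antisymm hkk hk0
    subst hk0z
    have hG := lin_sq p q y1 y2 hp.le hq.le hpq
    set G := y1 * (1 - p * (√2 / 2)) + y2 * (1 - q * (√2 / 2)) with hGdef
    have hG0 : 0 ≤ G := by positivity
    have hgj : max (gain p q y1 y2 0) 0 ≤ G :=
      max_le (gain_le' p q y1 y2 0 hp.le hq.le le_rfl) hG0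
    have hgi : max (gain p q x1 x2 0) 0 ≤ G := by
      apply max_le _ hG0
      refine (gain_le' p q x1 x2 0 hp.le hq.le le_rfl).trans ?_
      rw [hGdef]
      exact add_le_add (mul_le_mul_of_nonneg_right hx1' hcoef1)
        (mul_le_mul_of_nonneg_right hx2' hcoef2)
    calc max (gain p q x1 x2 0) 0 * max (gain p q y1 y2 0) 0 ≤ G * G :=
          mul_le_mul hgi hgj (le_max_right _ _) hG0
      _ = G ^ 2 := by ring
      _ ≤ _ := hG
      _ = _ := by ring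

/-- The merge inequality. -/
theorem merge_ineq (K : ℕ) (t : ℕ → ℝ) (ht0 : t 0 = 0) (ht : Monotone t)
    (p q s : ℝ) (hs : 0 < s) (hp : 0 < p) (hq : 0 < q) (hpq : p + q = 1)
    (y1 y2 k : ℕ → ℝ) (hy1 : Monotone y1) (hy2 : Monotone y2) (hk : Monotone k)
    (hy10 : ∀ j, 0 ≤ y1 j) (hy20 : ∀ j, 0 ≤ y2 j) (hy11 : ∀ j, y1 j ≤ 1) (hy21 : ∀ j, y2 j ≤ 1)
    (hk0 : ∀ j, 0 ≤ k j) (hk1 : ∀ j, k j ≤ y1 j * y2 j) :
    2 / cst * ∑ j ∈ range K, (t (j + 1) - t j) * gain p q (y1 j) (y2 j) (k j) ≤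
      s * (1 - p * q) + 1 / (2 * s) *
        ∑ j ∈ range K, (t (j + 1) ^ 2 - t j ^ 2) * (y1 j ^ 2 + y2 j ^ 2 - 2 * k j) := by
  set G := ∑ j ∈ range K, (t (j + 1) - t j) * max (gain p q (y1 j) (y2 j) (k j)) 0 with hG
  set D := ∑ j ∈ range K, (t (j + 1) ^ 2 - t j ^ 2) * (y1 j ^ 2 + y2 j ^ 2 - 2 * k j) with hD
  have hc := cst_pos
  have h1 : ∑ j ∈ range K, (t (j + 1) - t j) * gain p q (y1 j) (y2 j) (k j) ≤ G := by
    apply sum_le_sum
    intro j _
    exact mul_le_mul_of_nonneg_left (le_max_left _ _) (sub_nonneg.2 (ht (Nat.le_succ j)))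
  have hG0 : 0 ≤ G := sum_nonneg fun j _ =>
    mul_nonneg (sub_nonneg.2 (ht (Nat.le_succ j))) (le_max_right _ _)
  have h2 : G ^ 2 ≤ cst ^ 2 / 2 * (1 - p * q) * D := by
    have := sum_sq_le t (fun j => max (gain p q (y1 j) (y2 j) (k j)) 0)
      (fun j => cst ^ 2 / 2 * (1 - p * q) * (y1 j ^ 2 + y2 j ^ 2 - 2 * k j)) ht0 ht K
      (fun i j hij _ => pair_ineq p q (y1 i) (y2 i) (k i) (y1 j) (y2 j) (k j) hp hq hpq
        (hk0 i) (hy1 hij) (hy2 hij) (hk hij) (hy11 j) (hy21 j) (hy10 i) (hy20 i) (hk1 j))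
    refine this.trans (le_of_eq ?_)
    rw [hD, mul_sum]
    apply sum_congr rfl
    intro j _
    ring
  -- AM-GM
  set X := s * (1 - p * q) with hX
  have h3 : 2 / cst * G ≤ X + 1 / (2 * s) * D := by
    have hR0 : 0 ≤ X + 1 / (2 * s) * D := by
      have hq' : q = 1 - p := by linarith
      have h1pq : 0 < 1 - p * q := by rw [hq']; nlinarith [sq_nonneg (p - 1/2)]
      have hD0 : 0 ≤ D := by
        have : 0 ≤ cst ^ 2 / 2 * (1 - p * q) * D := (sq_nonneg G).trans h2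
        have h5 : 0 < cst ^ 2 / 2 * (1 - p * q) := by positivity
        exact nonneg_of_mul_nonneg_right this h5
      positivity
    apply le_of_sq_le_sq _ hR0
    calc (2 / cst * G) ^ 2 = 4 / cst ^ 2 * G ^ 2 := by ring
      _ ≤ 4 / cst ^ 2 * (cst ^ 2 / 2 * (1 - p * q) * D) :=
          mul_le_mul_of_nonneg_left h2 (by positivity)
      _ = 4 * X * (1 / (2 * s) * D) := by
          rw [hX]; field_simp
      _ ≤ (X + 1 / (2 * s) * D) ^ 2 := by
          nlinarith [sq_nonneg (X - 1 / (2 * s) * D)]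
  have h4 : 2 / cst * ∑ j ∈ range K, (t (j + 1) - t j) * gain p q (y1 j) (y2 j) (k j) ≤
      2 / cst * G := mul_le_mul_of_nonneg_left h1 (by positivity)
  exact h4.trans h3

end Pool.Agent.Helper77.Steiner
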