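import Mathlib
import Pool.Agent.Helper77.ST.Ineq

/-!
# States of the transport argument
-/

namespace Pool.Agent.Helper77.Steiner

open Real Finset

variable {ι : Type*} [Fintype ι] [DecidableEq ι] {E : Type*} [NormedAddCommGroup E]
  [InnerProductSpace ℝ E]

/-- A system of levels: thresholds `t` and nested classes such that points in different classes
of level `j` have distance at least `t (j+1)`. -/
structure Lev (a : ι → E) where
  K : ℕ
  t : ℕ → ℝ
  t0 : t 0 = 0
  mono : Monotone t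
  cls : ℕ → ι → ι
  nested : ∀ j x y, cls j x = cls j y → cls (j + 1) x = cls (j + 1) y
  sep : ∀ j, j < K → ∀ x y, cls j x ≠ cls j y → t (j + 1) ≤ dist (a x) (a y)

namespace Lev

variable {a : ι → E} (L : Lev a)

/-- Mass of a class. -/
noncomputable def mass (j : ℕ) (μ : ι → ℝ) (c : ι) : ℝ := ∑ x, if L.cls j x = c then μ x else 0

/-- Correlation at level `j`. -/
noncomputable def q (j : ℕ) (μ ν : ι → ℝ) : ℝ := ∑ c, L.mass j μ c * L.mass j ν c

lemma q_eq (j : ℕ) (μ ν : ι → ℝ) :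
    L.q j μ ν = ∑ x, ∑ y, if L.cls j x = L.cls j y then μ x * ν y else 0 := by
  unfold q mass
  simp_rw [Finset.sum_mul_sum]
  rw [Finset.sum_comm]
  apply Finset.sum_congr rfl
  intro x _
  rw [Finset.sum_comm]
  apply Finset.sum_congr rfl
  intro y _
  by_cases h : L.cls j x = L.cls j y
  · rw [if_pos h, Finset.sum_eq_single (L.cls j x)]
    · simp [h]
    · intro c _ hc
      simp [Ne.symm hc]
    · simp
  · rw [if_neg h]
    apply Finset.sum_eq_zero
    intro c _
    by_cases h1 : L.cls j x = c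
    · have : L.cls j y ≠ c := fun h2 => h (h1.trans h2.symm)
      simp [this]
    · simp [h1]

lemma nested' {i j : ℕ} (hij : i ≤ j) {x y : ι} (h : L.cls i x = L.cls i y) :
    L.cls j x = L.cls j y := by
  induction hij with
  | refl => exact h
  | step _ ih => exact L.nested _ _ _ ih

lemma q_mono {μ ν : ι → ℝ} (hμ : ∀ x, 0 ≤ μ x) (hν : ∀ x, 0 ≤ ν x) :
    Monotone (fun j => L.q j μ ν) := by
  intro i j hij
  show L.q i μ ν ≤ L.q j μ ν
  rw [q_eq, q_eq]
  apply sum_le_sum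
  intro x _
  apply sum_le_sum
  intro y _
  by_cases h : L.cls i x = L.cls i y
  · rw [if_pos h, if_pos (L.nested' hij h)]
  · rw [if_neg h]
    split_ifs
    · exact mul_nonneg (hμ x) (hν y)
    · exact le_rfl

lemma mass_nonneg {μ : ι → ℝ} (hμ : ∀ x, 0 ≤ μ x) (j : ℕ) (c : ι) : 0 ≤ L.mass j μ c := by
  apply sum_nonneg
  intro x _
  split_ifs
  · exact hμ x
  · exact le_rfl

lemma q_nonneg {μ ν : ι → ℝ} (hμ : ∀ x, 0 ≤ μ x) (hν : ∀ x, 0 ≤ ν x) (j : ℕ) :
    0 ≤ L.q j μ ν :=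
  sum_nonneg fun c _ => mul_nonneg (L.mass_nonneg hμ j c) (L.mass_nonneg hν j c)

lemma q_le_one {μ : ι → ℝ} (hμ : ∀ x, 0 ≤ μ x) (h1 : ∑ x, μ x = 1) (j : ℕ) :
    L.q j μ μ ≤ 1 := by
  rw [q_eq]
  calc _ ≤ ∑ x, ∑ y, μ x * μ y := by
        apply sum_le_sum
        intro x _
        apply sum_le_sum
        intro y _
        split_ifs
        · exact le_rfl
        · exact mul_nonneg (hμ x) (hμ y)
    _ = (∑ x, μ x) * ∑ y, μ y := (Finset.sum_mul_sum _ _ _ _).symm
    _ = 1 := by rw [h1, one_mul]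

lemma q_cs {μ ν : ι → ℝ} (hμ : ∀ x, 0 ≤ μ x) (hν : ∀ x, 0 ≤ ν x) (j : ℕ) :
    L.q j μ ν ≤ √(L.q j μ μ) * √(L.q j ν ν) := by
  rw [← Real.sqrt_mul (L.q_nonneg hμ hμ j)]
  apply Real.le_sqrt_of_sq_le
  have := Finset.sum_mul_sq_le_sq_mul_sq univ (L.mass j μ) (L.mass j ν)
  unfold q
  simpa [sq] using this

lemma mass_comb (j : ℕ) (p r : ℝ) (μ ν : ι → ℝ) (c : ι) :
    L.mass j (fun x => p * μ x + r * ν x) c = p * L.mass j μ c + r * L.mass j ν c := by
  unfold mass
  rw [mul_sum, mul_sum, ← sum_add_distrib]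
  apply sum_congr rfl
  intro x _
  split_ifs <;> ring

lemma q_comb (j : ℕ) (p r : ℝ) (μ ν : ι → ℝ) :
    L.q j (fun x => p * μ x + r * ν x) (fun x => p * μ x + r * ν x) =
      p ^ 2 * L.q j μ μ + r ^ 2 * L.q j ν ν + 2 * p * r * L.q j μ ν := by
  unfold q
  simp_rw [mass_comb, mul_sum, ← sum_add_distrib]
  apply sum_congr rfl
  intro c _
  ring

lemma exists_of_q_pos {j : ℕ} {μ ν : ι → ℝ} (h : 0 < L.q j μ ν) :
    ∃ x y, μ x ≠ 0 ∧ ν y ≠ 0 ∧ L.cls j x = L.cls j y := by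
  by_contra hcon
  push Not at hcon
  rw [q_eq] at h
  have : ∑ x, ∑ y, (if L.cls j x = L.cls j y then μ x * ν y else 0) = 0 := by
    apply sum_eq_zero
    intro x _
    apply sum_eq_zero
    intro y _
    split_ifs with hxy
    · by_cases hx : μ x = 0
      · simp [hx]
      · by_cases hy : ν y = 0
        · simp [hy]
        · exact absurd hxy (hcon x y hx hy)
    · rfl
  rw [this] at h
  exact lt_irrefl _ h

/-- The ultrametric bound. -/
lemma ultra_le (x y : ι) : ∀ k ≤ L.K,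
    ∑ j ∈ range k, (L.t (j + 1) ^ 2 - L.t j ^ 2) * (if L.cls j x = L.cls j y then 0 else 1) ≤
      ‖a x - a y‖ ^ 2 := by
  intro k
  have tnn : ∀ j, 0 ≤ L.t j := fun j => by
    have := L.mono (Nat.zero_le j); rwa [L.t0] at this
  induction k with
  | zero => intro _; simp
  | succ k ih =>
    intro hk
    by_cases h : L.cls k x = L.cls k y
    · rw [sum_range_succ, if_pos h, mul_zero, add_zero]
      exact ih (by omega)
    · calc _ ≤ ∑ j ∈ range (k + 1), (L.t (j + 1) ^ 2 - L.t j ^ 2) := by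
            apply sum_le_sum
            intro j _
            have h1 : L.t j ^ 2 ≤ L.t (j + 1) ^ 2 :=
              pow_le_pow_left₀ (tnn j) (L.mono (Nat.le_succ j)) 2
            split_ifs
            · linarith
            · linarith
        _ = L.t (k + 1) ^ 2 := by
            rw [Finset.sum_range_sub (fun j => L.t j ^ 2), L.t0]; ring
        _ ≤ _ := by
            have := L.sep k (by omega) x y h
            rw [dist_eq_norm] at this
            exact pow_le_pow_left₀ (tnn _) this 2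

/-- Weighted energy in the ultrametric. -/
noncomputable def U (μ : ι → ℝ) : ℝ :=
  ∑ j ∈ range L.K, (L.t (j + 1) ^ 2 - L.t j ^ 2) * (1 - L.q j μ μ)

/-- Variance. -/
noncomputable def V (a : ι → E) (μ : ι → ℝ) : ℝ := ∑ x, ∑ y, μ x * μ y * ‖a x - a y‖ ^ 2

lemma U_le_V {μ : ι → ℝ} (hμ : ∀ x, 0 ≤ μ x) (h1 : ∑ x, μ x = 1) : L.U μ ≤ V a μ := by
  have e : L.U μ = ∑ x, ∑ y, μ x * μ y * (∑ j ∈ range L.K, (L.t (j + 1) ^ 2 - L.t j ^ 2) *
      (if L.cls j x = L.cls j y then 0 else 1)) := by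
    unfold U
    simp_rw [mul_sum]
    have : ∀ x : ι, ∑ y, ∑ j ∈ range L.K, μ x * μ y * ((L.t (j + 1) ^ 2 - L.t j ^ 2) *
        (if L.cls j x = L.cls j y then 0 else 1)) = ∑ j ∈ range L.K, ∑ y, μ x * μ y *
        ((L.t (j + 1) ^ 2 - L.t j ^ 2) * (if L.cls j x = L.cls j y then 0 else 1)) :=
      fun x => Finset.sum_comm
    simp_rw [this]
    rw [Finset.sum_comm]
    apply sum_congr rfl
    intro j _
    rw [q_eq]
    have h2 : (1 : ℝ) = ∑ x, ∑ y, μ x * μ y := by
      rw [← Finset.sum_mul_sum, h1, one_mul]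
    conv_lhs => rw [h2]
    rw [← sum_sub_distrib, mul_sum]
    apply sum_congr rfl
    intro x _
    rw [← sum_sub_distrib, mul_sum]
    apply sum_congr rfl
    intro y _
    split_ifs <;> ring
  rw [e]
  apply sum_le_sum
  intro x _
  apply sum_le_sum
  intro y _
  exact mul_le_mul_of_nonneg_left (L.ultra_le x y L.K le_rfl) (mul_nonneg (hμ x) (hμ y))

omit [DecidableEq ι] in
lemma V_eq {μ : ι → ℝ} (h1 : ∑ x, μ x = 1) :
    V a μ = 2 * (∑ x, μ x * ‖a x‖ ^ 2 - ‖∑ x, μ x • a x‖ ^ 2) := by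
  unfold V
  have e : ‖∑ x, μ x • a x‖ ^ 2 = ∑ x, ∑ y, μ x * μ y * inner ℝ (a x) (a y) := by
    rw [← real_inner_self_eq_norm_sq, sum_inner]
    apply sum_congr rfl
    intro x _
    rw [inner_sum]
    apply sum_congr rfl
    intro y _
    rw [real_inner_smul_left, real_inner_smul_right]
    ring
  rw [e]
  have e1 : ∑ x, μ x * ‖a x‖ ^ 2 = ∑ x, ∑ y, μ x * μ y * ‖a x‖ ^ 2 := by
    apply sum_congr rfl
    intro x _
    have : ∀ y, μ x * μ y * ‖a x‖ ^ 2 = μ y * (μ x * ‖a x‖ ^ 2) := fun y => by ring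
    simp_rw [this]
    rw [← sum_mul, h1, one_mul]
  have e2 : ∑ x, μ x * ‖a x‖ ^ 2 = ∑ x, ∑ y, μ x * μ y * ‖a y‖ ^ 2 := by
    rw [Finset.sum_comm, e1]
    apply sum_congr rfl
    intro x _
    apply sum_congr rfl
    intro y _
    ring
  have e3 : 2 * (∑ x, μ x * ‖a x‖ ^ 2 - ∑ x, ∑ y, μ x * μ y * inner ℝ (a x) (a y)) =
      (∑ x, ∑ y, μ x * μ y * ‖a x‖ ^ 2) + (∑ x, ∑ y, μ x * μ y * ‖a y‖ ^ 2) -
        2 * ∑ x, ∑ y, μ x * μ y * inner ℝ (a x) (a y) := by
    rw [← e1, ← e2]; ring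
  rw [e3, mul_sum, ← sum_add_distrib, ← sum_sub_distrib]
  apply sum_congr rfl
  intro x _
  rw [mul_sum, ← sum_add_distrib, ← sum_sub_distrib]
  apply sum_congr rfl
  intro y _
  rw [norm_sub_sq_real]
  ring

omit [DecidableEq ι] in
lemma F_eq {μ : ι → ℝ} (h1 : ∑ x, μ x = 1) (r : E) :
    ∑ x, μ x * ‖r - a x‖ ^ 2 = ‖r - ∑ x, μ x • a x‖ ^ 2 + V a μ / 2 := by
  rw [V_eq h1, norm_sub_sq_real, inner_sum]
  have : ∀ x, μ x * ‖r - a x‖ ^ 2 = μ x * ‖r‖ ^ 2 - 2 * (inner ℝ r (μ x • a x)) +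
      μ x * ‖a x‖ ^ 2 := by
    intro x
    rw [norm_sub_sq_real, real_inner_smul_right]
    ring
  simp_rw [this]
  rw [sum_add_distrib, sum_sub_distrib, ← sum_mul, h1, ← mul_sum]
  ring

/-- Number of classes met by `B` at level `j`. -/
def ncl (j : ℕ) (B : Finset ι) : ℕ := (B.image (L.cls j)).card

/-- States. -/
def Good (r : E) (W : ℝ) (B : Finset ι) : Prop :=
  ∃ (μ : ι → ℝ) (α Q : ℝ), 0 < α ∧ (∀ x, 0 ≤ μ x) ∧ ∑ x, μ x = 1 ∧ (∀ x, x ∉ B → μ x = 0) ∧
    Q + 1 / α * ∑ x, μ x * ‖r - a x‖ ^ 2 ≤ W ∧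
    2 / cst * ∑ j ∈ range L.K, (L.t (j + 1) - L.t j) * ((L.ncl j B : ℝ) - √(L.q j μ μ)) ≤
      Q - α + 1 / (2 * α) * L.U μ

lemma Good.mono {r : E} {W W' : ℝ} {B : Finset ι} (h : L.Good r W B) (hW : W ≤ W') :
    L.Good r W' B := by
  obtain ⟨μ, α, Q, h1, h2, h3, h4, h5, h6⟩ := h
  exact ⟨μ, α, Q, h1, h2, h3, h4, h5.trans hW, h6⟩

lemma good_leaf (x : ι) {ε : ℝ} (hε : 0 < ε) : L.Good (a x) ε {x} := by
  have hm : ∀ j c, L.mass j (fun y => if y = x then (1 : ℝ) else 0) c =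
      if L.cls j x = c then 1 else 0 := by
    intro j c
    unfold mass
    rw [Finset.sum_eq_single x]
    · simp
    · intro y _ hy
      simp [hy]
    · simp
  have hq : ∀ j, L.q j (fun y => if y = x then (1 : ℝ) else 0)
      (fun y => if y = x then (1 : ℝ) else 0) = 1 := by
    intro j
    unfold q
    simp_rw [hm]
    simp
  refine ⟨fun y => if y = x then 1 else 0, ε, ε, hε, ?_, ?_, ?_, ?_, ?_⟩
  · intro y
    show (0 : ℝ) ≤ if y = x then 1 else 0
    split_ifs <;> norm_num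
  · simp
  · intro y hy
    have : y ≠ x := by simpa using hy
    simp [this]
  · have : ∑ y, (if y = x then (1 : ℝ) else 0) * ‖a x - a y‖ ^ 2 = 0 := by
      apply sum_eq_zero
      intro y _
      by_cases h : y = x
      · simp [h]
      · simp [h]
    rw [this]
    simp
  · unfold U
    simp_rw [hq]
    simp [ncl]

lemma titu {u v α l : ℝ} (hα : 0 < α) (hl : 0 < l) :
    1 / (α + l) * (u + v) ^ 2 ≤ 1 / α * u ^ 2 + 1 / l * v ^ 2 := by
  have e : 1 / α * u ^ 2 + 1 / l * v ^ 2 - 1 / (α + l) * (u + v) ^ 2 =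
      (u * l - v * α) ^ 2 / (α * l * (α + l)) := by
    field_simp
    ring
  have : 0 ≤ (u * l - v * α) ^ 2 / (α * l * (α + l)) := by positivity
  linarith

lemma Good.extend {r : E} {W : ℝ} {B : Finset ι} (h : L.Good r W B) (r' : E) {l : ℝ}
    (hl : 0 < l) : L.Good r' (W + l + 1 / l * ‖r - r'‖ ^ 2) B := by
  obtain ⟨μ, α, Q, h1, h2, h3, h4, h5, h6⟩ := h
  refine ⟨μ, α + l, Q + l + (1 / α - 1 / (α + l)) * (L.U μ / 2), by positivity, h2, h3, h4,
    ?_, ?_⟩
  · rw [F_eq h3] at h5 ⊢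
    set m := ∑ x, μ x • a x with hm
    have hUV := L.U_le_V h2 h3
    have ht := titu (u := ‖r - m‖) (v := ‖r - r'‖) h1 hl
    have htri : ‖r' - m‖ ≤ ‖r - m‖ + ‖r - r'‖ := by
      have : r' - m = (r - m) - (r - r') := by abel
      rw [this]
      exact norm_sub_le _ _
    have htri2 : ‖r' - m‖ ^ 2 ≤ (‖r - m‖ + ‖r - r'‖) ^ 2 :=
      pow_le_pow_left₀ (norm_nonneg _) htri 2
    have h7 : 1 / (α + l) * ‖r' - m‖ ^ 2 ≤ 1 / (α + l) * (‖r - m‖ + ‖r - r'‖) ^ 2 :=
      mul_le_mul_of_nonneg_left htri2 (by positivity)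
    have h8 : 0 ≤ 1 / α - 1 / (α + l) := by
      rw [sub_nonneg]
      exact one_div_le_one_div_of_le h1 (by linarith)
    have h9 : (1 / α - 1 / (α + l)) * (L.U μ / 2) ≤ (1 / α - 1 / (α + l)) * (V a μ / 2) :=
      mul_le_mul_of_nonneg_left (by linarith) h8
    nlinarith
  · have e : Q + l + (1 / α - 1 / (α + l)) * (L.U μ / 2) - (α + l) + 1 / (2 * (α + l)) * L.U μ =
        Q - α + 1 / (2 * α) * L.U μ := by
      field_simp
      ring
    rw [e]
    exact h6

/-- Moving a state costs twice the distance, up to `ε`. -/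
lemma Good.move {r : E} {W : ℝ} {B : Finset ι} (h : L.Good r W B) (r' : E) {ε : ℝ}
    (hε : 0 < ε) : L.Good r' (W + 2 * dist r r' + ε) B := by
  have h1 := h.extend L r' (l := dist r r' + ε) (by positivity)
  apply h1.mono
  rw [← dist_eq_norm]
  have hd : 0 ≤ dist r r' := dist_nonneg
  have : 1 / (dist r r' + ε) * dist r r' ^ 2 ≤ dist r r' := by
    rw [one_div, inv_mul_le_iff₀ (by positivity)]
    nlinarith
  linarith

/-- Merging two states. -/
lemma Good.merge {r : E} {W1 W2 : ℝ} {B1 B2 : Finset ι} (h : L.Good r W1 B1)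
    (h' : L.Good r W2 B2) : L.Good r (W1 + W2) (B1 ∪ B2) := by
  obtain ⟨μ, α, Q, h1, h2, h3, h4, h5, h6⟩ := h
  obtain ⟨ν, β, R, g1, g2, g3, g4, g5, g6⟩ := h'
  set s := α + β with hs
  have hs0 : 0 < s := by positivity
  set p := β / s with hp
  set u := α / s with hu
  have hp0 : 0 < p := by positivity
  have hu0 : 0 < u := by positivity
  have hpu : p + u = 1 := by
    rw [hp, hu, ← add_div, hs, add_comm β α]
    exact div_self (by positivity)
  refine ⟨fun x => p * μ x + u * ν x, α * β / s, Q + R, by positivity, ?_, ?_, ?_, ?_, ?_⟩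
  · intro x
    have := h2 x
    have := g2 x
    positivity
  · rw [sum_add_distrib, ← mul_sum, ← mul_sum, h3, g3]
    linarith
  · intro x hx
    rw [mem_union, not_or] at hx
    show p * μ x + u * ν x = 0
    rw [h4 x hx.1, g4 x hx.2]
    ring
  · have e : 1 / (α * β / s) * ∑ x, (p * μ x + u * ν x) * ‖r - a x‖ ^ 2 =
        1 / α * ∑ x, μ x * ‖r - a x‖ ^ 2 + 1 / β * ∑ x, ν x * ‖r - a x‖ ^ 2 := by
      rw [mul_sum, mul_sum, mul_sum, ← sum_add_distrib]
      apply sum_congr rfl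
      intro x _
      rw [hp, hu]
      field_simp
    rw [e]
    linarith
  · have hq : ∀ j, L.q j (fun x => p * μ x + u * ν x) (fun x => p * μ x + u * ν x) =
        p ^ 2 * L.q j μ μ + u ^ 2 * L.q j ν ν + 2 * p * u * L.q j μ ν :=
      fun j => L.q_comb j p u μ ν
    have hU : L.U (fun x => p * μ x + u * ν x) =
        ∑ j ∈ range L.K, (L.t (j + 1) ^ 2 - L.t j ^ 2) *
          (1 - (p ^ 2 * L.q j μ μ + u ^ 2 * L.q j ν ν + 2 * p * u * L.q j μ ν)) := by
      unfold U
      simp_rw [hq]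
    set D := ∑ j ∈ range L.K, (L.t (j + 1) ^ 2 - L.t j ^ 2) *
      (√(L.q j μ μ) ^ 2 + √(L.q j ν ν) ^ 2 - 2 * L.q j μ ν) with hD
    have hsq1 : ∀ j, √(L.q j μ μ) ^ 2 = L.q j μ μ := fun j => Real.sq_sqrt (L.q_nonneg h2 h2 j)
    have hsq2 : ∀ j, √(L.q j ν ν) ^ 2 = L.q j ν ν := fun j => Real.sq_sqrt (L.q_nonneg g2 g2 j)
    -- energy identity
    have hen : (Q + R) - α * β / s + 1 / (2 * (α * β / s)) * L.U (fun x => p * μ x + u * ν x) =
        (Q - α + 1 / (2 * α) * L.U μ) + (R - β + 1 / (2 * β) * L.U ν) +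
          (s * (1 - p * u) + 1 / (2 * s) * D) := by
      have e1 : α * β / s = s * (p * u) := by
        rw [hp, hu]; field_simp
      have e2 : 1 / (2 * (α * β / s)) * L.U (fun x => p * μ x + u * ν x) =
          1 / (2 * α) * L.U μ + 1 / (2 * β) * L.U ν + 1 / (2 * s) * D := by
        rw [hU, hD]
        unfold U
        rw [mul_sum, mul_sum, mul_sum, mul_sum, ← sum_add_distrib, ← sum_add_distrib]
        apply sum_congr rfl
        intro j _
        rw [hsq1, hsq2, hp, hu, hs]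
        field_simp
        ring
      rw [e2, e1]
      have : s = α + β := hs
      linarith
    -- merge inequality
    have hm := merge_ineq L.K L.t L.t0 L.mono p u s hs0 hp0 hu0 hpu
      (fun j => √(L.q j μ μ)) (fun j => √(L.q j ν ν)) (fun j => L.q j μ ν)
      (fun i j hij => Real.sqrt_le_sqrt (L.q_mono h2 h2 hij))
      (fun i j hij => Real.sqrt_le_sqrt (L.q_mono g2 g2 hij))
      (L.q_mono h2 g2) (fun j => Real.sqrt_nonneg _) (fun j => Real.sqrt_nonneg _)
      (fun j => Real.sqrt_le_one.2 (L.q_le_one h2 h3 j))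
      (fun j => Real.sqrt_le_one.2 (L.q_le_one g2 g3 j))
      (fun j => L.q_nonneg h2 g2 j) (fun j => L.q_cs h2 g2 j)
    rw [hen]
    have hc := cst_pos
    have hsum : ∑ j ∈ range L.K, (L.t (j + 1) - L.t j) * ((L.ncl j (B1 ∪ B2) : ℝ) -
        √(L.q j (fun x => p * μ x + u * ν x) (fun x => p * μ x + u * ν x))) ≤
        ∑ j ∈ range L.K, (L.t (j + 1) - L.t j) * ((L.ncl j B1 : ℝ) - √(L.q j μ μ)) +
        ∑ j ∈ range L.K, (L.t (j + 1) - L.t j) * ((L.ncl j B2 : ℝ) - √(L.q j ν ν)) +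
        ∑ j ∈ range L.K, (L.t (j + 1) - L.t j) *
          gain p u (√(L.q j μ μ)) (√(L.q j ν ν)) (L.q j μ ν) := by
      rw [← sum_add_distrib, ← sum_add_distrib]
      apply sum_le_sum
      intro j _
      rw [← mul_add, ← mul_add]
      apply mul_le_mul_of_nonneg_left _ (sub_nonneg.2 (L.mono (Nat.le_succ j)))
      unfold gain
      rw [hq, hsq1, hsq2]
      have hcard : (L.ncl j (B1 ∪ B2) : ℝ) ≤ L.ncl j B1 + L.ncl j B2 -
          (if 0 < L.q j μ ν then 1 else 0) := by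
        unfold ncl
        have h7 := Finset.card_union_add_card_inter (B1.image (L.cls j)) (B2.image (L.cls j))
        rw [← Finset.image_union] at h7
        have h7' : (((B1 ∪ B2).image (L.cls j)).card : ℝ) +
            ((B1.image (L.cls j) ∩ B2.image (L.cls j)).card : ℝ) =
            (B1.image (L.cls j)).card + (B2.image (L.cls j)).card := by exact_mod_cast h7
        by_cases hpos : 0 < L.q j μ ν
        · rw [if_pos hpos]
          obtain ⟨x, y, hx, hy, hxy⟩ := L.exists_of_q_pos hpos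
          have hxB : x ∈ B1 := by
            by_contra hcon
            exact hx (h4 x hcon)
          have hyB : y ∈ B2 := by
            by_contra hcon
            exact hy (g4 y hcon)
          have h8 : 0 < (B1.image (L.cls j) ∩ B2.image (L.cls j)).card := by
            apply Finset.card_pos.2
            refine ⟨L.cls j x, mem_inter.2 ⟨mem_image_of_mem _ hxB, ?_⟩⟩
            rw [hxy]
            exact mem_image_of_mem _ hyB
          have h9 : (1 : ℝ) ≤ (B1.image (L.cls j) ∩ B2.image (L.cls j)).card := by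
            exact_mod_cast h8
          linarith
        · rw [if_neg hpos]
          have h9 : (0 : ℝ) ≤ (B1.image (L.cls j) ∩ B2.image (L.cls j)).card := by positivity
          linarith
      linarith
    have h10 := mul_le_mul_of_nonneg_left hsum (show 0 ≤ 2 / cst by positivity)
    rw [mul_add, mul_add] at h10
    linarith

/-- The value of a state is large. -/
lemma Good.le {r : E} {W : ℝ} {B : Finset ι} (h : L.Good r W B) :
    2 / cst * ∑ j ∈ range L.K, (L.t (j + 1) - L.t j) * ((L.ncl j B : ℝ) - 1) ≤ W := by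
  obtain ⟨μ, α, Q, h1, h2, h3, h4, h5, h6⟩ := h
  have hc := cst_pos
  rw [F_eq h3] at h5
  have hUV := L.U_le_V h2 h3
  have e : 1 / (2 * α) * L.U μ ≤ 1 / α * (‖r - ∑ x, μ x • a x‖ ^ 2 + V a μ / 2) := by
    have e1 : 1 / (2 * α) * L.U μ = 1 / α * (L.U μ / 2) := by field_simp
    rw [e1]
    apply mul_le_mul_of_nonneg_left _ (by positivity)
    have := sq_nonneg ‖r - ∑ x, μ x • a x‖
    linarith
  have h7 : 2 / cst * ∑ j ∈ range L.K, (L.t (j + 1) - L.t j) * ((L.ncl j B : ℝ) - 1) ≤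
      2 / cst * ∑ j ∈ range L.K, (L.t (j + 1) - L.t j) * ((L.ncl j B : ℝ) - √(L.q j μ μ)) := by
    apply mul_le_mul_of_nonneg_left _ (by positivity)
    apply sum_le_sum
    intro j _
    apply mul_le_mul_of_nonneg_left _ (sub_nonneg.2 (L.mono (Nat.le_succ j)))
    have := Real.sqrt_le_one.2 (L.q_le_one h2 h3 j)
    linarith
  linarith

end Lev

end Pool.Agent.Helper77.Steiner
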