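import Mathlib
import Pool.Agent.Helper77.ST.Good

/-!
# Finite networks and the lower bound for their length
-/

namespace Pool.Agent.Helper77.Steiner

open Real Finset Classical

/-- Finite networks: `Net V l` says that the points of `V` can be joined one after another to an
earlier one, by segments of total length `l`. -/
inductive Net {E : Type*} [PseudoMetricSpace E] : Finset E → ℝ → Prop
  | single (v : E) : Net {v} 0
  | step {V : Finset E} {l : ℝ} (h : Net V l) {p : E} (hp : p ∈ V) (w : E) :
      Net (insert w V) (l + dist p w)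

variable {ι : Type*} [Fintype ι] [DecidableEq ι] {E : Type*} [NormedAddCommGroup E]
  [InnerProductSpace ℝ E]

namespace Lev

variable {a : ι → E} (L : Lev a)

/-- States, with the empty state allowed. -/
def Good' (r : E) (W : ℝ) (B : Finset ι) : Prop := (B = ∅ ∧ 0 ≤ W) ∨ L.Good r W B

lemma Good.nonneg {r : E} {W : ℝ} {B : Finset ι} (h : L.Good r W B) : 0 ≤ W := by
  have h0 := h.le
  obtain ⟨μ, α, Q, h1, h2, h3, h4, h5, h6⟩ := h
  have hB : B.Nonempty := by
    by_contra hcon
    rw [Finset.not_nonempty_iff_eq_empty] at hcon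
    have : ∑ x, μ x = 0 := sum_eq_zero fun x _ => h4 x (by simp [hcon])
    rw [this] at h3
    exact zero_ne_one h3
  refine le_trans ?_ h0
  have hc := cst_pos
  apply mul_nonneg (by positivity)
  apply sum_nonneg
  intro j _
  apply mul_nonneg (sub_nonneg.2 (L.mono (Nat.le_succ j)))
  have : 1 ≤ L.ncl j B := Finset.card_pos.2 (hB.image _)
  have : (1 : ℝ) ≤ L.ncl j B := by exact_mod_cast this
  linarith

lemma Good'.nonneg {r : E} {W : ℝ} {B : Finset ι} (h : L.Good' r W B) : 0 ≤ W := by
  rcases h with h | h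
  · exact h.2
  · exact h.nonneg

lemma Good'.mono {r : E} {W W' : ℝ} {B : Finset ι} (h : L.Good' r W B) (hW : W ≤ W') :
    L.Good' r W' B := by
  rcases h with h | h
  · exact Or.inl ⟨h.1, h.2.trans hW⟩
  · exact Or.inr (h.mono L hW)

lemma Good'.move {r : E} {W : ℝ} {B : Finset ι} (h : L.Good' r W B) (r' : E) {ε : ℝ}
    (hε : 0 < ε) : L.Good' r' (W + 2 * dist r r' + ε) B := by
  rcases h with h | h
  · have : 0 ≤ dist r r' := dist_nonneg
    exact Or.inl ⟨h.1, by linarith [h.2]⟩
  · exact Or.inr (h.move L r' hε)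

lemma Good'.merge {r : E} {W1 W2 : ℝ} {B1 B2 : Finset ι} (h : L.Good' r W1 B1)
    (h' : L.Good' r W2 B2) : L.Good' r (W1 + W2) (B1 ∪ B2) := by
  have n1 := h.nonneg
  have n2 := h'.nonneg
  rcases h with h | h
  · rw [h.1, empty_union]
    exact h'.mono L (by linarith)
  · rcases h' with h' | h'
    · rw [h'.1, union_empty]
      exact Or.inr (h.mono L (by linarith))
    · exact Or.inr (h.merge L h')

lemma good'_leaves (v : E) {ε : ℝ} (hε : 0 < ε) (B : Finset ι) (hB : ∀ x ∈ B, a x = v) :
    L.Good' v (B.card * ε) B := by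
  induction B using Finset.induction_on with
  | empty => exact Or.inl ⟨rfl, by simp⟩
  | insert x B hx ih =>
    have h1 : L.Good' v ε {x} := by
      have := L.good_leaf x hε
      rw [hB x (mem_insert_self _ _)] at this
      exact Or.inr this
    have h2 := ih (fun y hy => hB y (mem_insert_of_mem hy))
    have h3 := h1.merge L h2
    rw [card_insert_of_notMem hx]
    rw [← Finset.insert_eq] at h3
    apply h3.mono
    push_cast
    linarith

/-- Contracting a network. -/
lemma contract {V : Finset E} {l : ℝ} (h : Net V l) :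
    ∀ (W : E → ℝ) (B : E → Finset ι), (∀ v ∈ V, L.Good' v (W v) (B v)) → ∀ ε : ℝ, 0 < ε →
      ∃ r, L.Good' r (∑ v ∈ V, W v + 2 * l + ε) (V.biUnion B) := by
  induction h with
  | single v =>
    intro W B hB ε hε
    refine ⟨v, ?_⟩
    rw [sum_singleton, singleton_biUnion]
    exact (hB v (mem_singleton_self v)).mono L (by linarith)
  | @step V l h p hp w ih =>
    intro W B hB ε hε
    by_cases hw : w ∈ V
    · rw [insert_eq_self.2 hw] at hB ⊢
      obtain ⟨r, hr⟩ := ih W B hB ε hε
      refine ⟨r, hr.mono L ?_⟩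
      have : 0 ≤ dist p w := dist_nonneg
      linarith
    · set X := W w + 2 * dist w p + ε / 2 with hX
      obtain ⟨r, hr⟩ := ih (fun v => W v + if v = p then X else 0)
        (fun v => B v ∪ if v = p then B w else ∅) (by
          intro v hv
          have h1 := hB v (mem_insert_of_mem hv)
          by_cases hvp : v = p
          · subst hvp
            simp only [if_true]
            have h2 := (hB w (mem_insert_self _ _)).move L v (half_pos hε)
            exact h1.merge L h2
          · simpa [hvp] using h1) (ε / 2) (half_pos hε)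
      refine ⟨r, ?_⟩
      have e1 : ∑ v ∈ V, (W v + if v = p then X else 0) = ∑ v ∈ V, W v + X := by
        rw [sum_add_distrib, Finset.sum_ite_eq' V p (fun _ => X), if_pos hp]
      have e2 : (V.biUnion fun v => B v ∪ if v = p then B w else ∅) = (insert w V).biUnion B := by
        ext x
        simp only [mem_biUnion, mem_union, mem_insert]
        constructor
        · rintro ⟨v, hv, h1 | h1⟩
          · exact ⟨v, Or.inr hv, h1⟩
          · split_ifs at h1 with h2
            · exact ⟨w, Or.inl rfl, h1⟩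
            · simp at h1
        · rintro ⟨v, rfl | hv, h1⟩
          · exact ⟨p, hp, Or.inr (by simpa using h1)⟩
          · exact ⟨v, hv, Or.inl h1⟩
      rw [e1, e2] at hr
      apply hr.mono
      rw [sum_insert hw, hX, dist_comm w p]
      linarith

/-- Lower bound for the length of a network. -/
theorem net_lower [Nonempty ι] {V : Finset E} {l : ℝ} (h : Net V l) (hV : ∀ x, a x ∈ V) :
    ∑ j ∈ range L.K, (L.t (j + 1) - L.t j) * ((L.ncl j univ : ℝ) - 1) ≤ cst * l := by
  have hc := cst_pos
  have key : 2 / cst * ∑ j ∈ range L.K, (L.t (j + 1) - L.t j) * ((L.ncl j univ : ℝ) - 1) ≤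
      2 * l := by
    apply le_of_forall_pos_le_add
    intro ε hε
    obtain ⟨B, hB⟩ : ∃ B : E → Finset ι, ∀ v x, x ∈ B v ↔ a x = v :=
      ⟨fun v => univ.filter (fun x => a x = v), fun v x => by
        rw [mem_filter]; exact ⟨fun h => h.2, fun h => ⟨mem_univ x, h⟩⟩⟩
    obtain ⟨C, hC⟩ : ∃ C : ℝ, C = ∑ v ∈ V, ((B v).card : ℝ) := ⟨_, rfl⟩
    have hC0 : 0 ≤ C := by
      rw [hC]
      exact sum_nonneg fun v _ => Nat.cast_nonneg _
    obtain ⟨δ, hδ⟩ : ∃ δ : ℝ, δ = ε / (2 * (C + 1)) := ⟨_, rfl⟩
    have hδ0 : 0 < δ := by rw [hδ]; exact div_pos hε (by linarith)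
    obtain ⟨r, hr⟩ := L.contract h (fun v => (B v).card * δ) B
      (fun v _ => L.good'_leaves v hδ0 (B v) (fun x hx => (hB v x).1 hx)) (ε / 2) (half_pos hε)
    have hun : V.biUnion B = univ := by
      ext x
      rw [mem_biUnion]
      exact ⟨fun _ => mem_univ x, fun _ => ⟨a x, hV x, (hB _ _).2 rfl⟩⟩
    rw [hun] at hr
    rcases hr with hr | hr
    · exact absurd hr.1 (Finset.univ_nonempty.ne_empty)
    · refine hr.le.trans ?_
      have e : ∑ v ∈ V, ((B v).card : ℝ) * δ = C * δ := by rw [hC, sum_mul]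
      rw [e]
      have : C * δ ≤ ε / 2 := by
        rw [hδ, mul_div_assoc', div_le_div_iff₀ (by linarith) (by norm_num)]
        nlinarith
      linarith
  have h2 : 2 / cst * ∑ j ∈ range L.K, (L.t (j + 1) - L.t j) * ((L.ncl j univ : ℝ) - 1) =
      2 * (∑ j ∈ range L.K, (L.t (j + 1) - L.t j) * ((L.ncl j univ : ℝ) - 1)) / cst := by ring
  rw [h2, div_le_iff₀ hc] at key
  linarith

end Lev

end Pool.Agent.Helper77.Steiner
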