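import Mathlib
import Pool.Agent.Helper77.ST.Net

/-!
# Finite networks from connected sets of finite length
-/

namespace Pool.Agent.Helper77.Steiner

open Real Finset Classical MeasureTheory Metric
open scoped ENNReal NNReal

/-- The nerve graph of a sequence of sets. -/
def nerve {E : Type*} (U : ℕ → Set E) : SimpleGraph ℕ where
  Adj i j := i ≠ j ∧ (U i ∩ U j).Nonempty
  symm := ⟨fun i j h => ⟨h.1.symm, by rw [Set.inter_comm]; exact h.2⟩⟩
  loopless := ⟨fun i h => h.1 rfl⟩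

lemma nerve_adj {E : Type*} {U : ℕ → Set E} {i j : ℕ} :
    (nerve U).Adj i j ↔ i ≠ j ∧ (U i ∩ U j).Nonempty := Iff.rfl

lemma nerve_reachable {E : Type*} [TopologicalSpace E] (U : ℕ → Set E) (hU : ∀ n, IsOpen (U n))
    {K : Set E} (hK : IsPreconnected K) (hcov : K ⊆ ⋃ n, U n) {i j : ℕ}
    (hi : (K ∩ U i).Nonempty) (hj : (K ∩ U j).Nonempty) : (nerve U).Reachable i j := by
  by_contra hcon
  have hu : IsOpen (⋃ k ∈ {k | (nerve U).Reachable i k}, U k) :=
    isOpen_biUnion fun k _ => hU k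
  have hv : IsOpen (⋃ k ∈ {k | ¬ (nerve U).Reachable i k}, U k) :=
    isOpen_biUnion fun k _ => hU k
  have h := hK _ _ hu hv (by
    intro x hx
    obtain ⟨n, hn⟩ := Set.mem_iUnion.1 (hcov hx)
    by_cases h : (nerve U).Reachable i n
    · exact Or.inl (Set.mem_biUnion (show n ∈ {k | (nerve U).Reachable i k} from h) hn)
    · exact Or.inr (Set.mem_biUnion (show n ∈ {k | ¬ (nerve U).Reachable i k} from h) hn)) (by
    obtain ⟨x, hx, hxi⟩ := hi
    exact ⟨x, hx, Set.mem_biUnion (show i ∈ {k | (nerve U).Reachable i k} from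
      SimpleGraph.Reachable.refl i) hxi⟩) (by
    obtain ⟨x, hx, hxj⟩ := hj
    exact ⟨x, hx, Set.mem_biUnion (show j ∈ {k | ¬ (nerve U).Reachable i k} from hcon) hxj⟩)
  obtain ⟨x, _, hx1, hx2⟩ := h
  rw [Set.mem_iUnion₂] at hx1 hx2
  obtain ⟨k, hk, hxk⟩ := hx1
  obtain ⟨m, hm, hxm⟩ := hx2
  apply hm
  by_cases hkm : k = m
  · rw [← hkm]; exact hk
  · have : (nerve U).Adj k m := nerve_adj.2 ⟨hkm, x, hxk, hxm⟩
    exact hk.trans this.reachable

/-- Joining a point to a network along a path of the nerve. -/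
lemma attach {E : Type*} [PseudoMetricSpace E] (U : ℕ → Set E) (d : ℕ → ℝ) (δ : ℝ)
    (hd : ∀ n, ∀ x ∈ U n, ∀ y ∈ U n, dist x y ≤ d n) (hdδ : ∀ n, d n ≤ δ)
    {V : Finset E} {l : ℝ} (hN : Net V l) (I : Finset ℕ) (hI : ∀ i ∈ I, ∃ v ∈ V, v ∈ U i)
    {i j : ℕ} (w : (nerve U).Walk i j) (hw : w.IsPath) (hj : j ∈ I) :
    ∀ x ∈ U i, ∃ (V' : Finset E) (l' : ℝ) (I' : Finset ℕ), Net V' l' ∧ V ⊆ V' ∧ x ∈ V' ∧ I ⊆ I' ∧
      (∀ i ∈ I', ∃ v ∈ V', v ∈ U i) ∧ (∀ k ∈ I', k ∈ I ∨ k ∈ w.support) ∧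
      l' + ∑ k ∈ I, d k ≤ l + ∑ k ∈ I', d k + δ := by
  have base : ∀ i ∈ I, ∀ x ∈ U i, ∃ (V' : Finset E) (l' : ℝ), Net V' l' ∧ V ⊆ V' ∧ x ∈ V' ∧
      (∀ i ∈ I, ∃ v ∈ V', v ∈ U i) ∧ l' ≤ l + δ := by
    intro i hi x hx
    obtain ⟨v, hv, hvi⟩ := hI i hi
    refine ⟨insert x V, l + dist v x, hN.step hv x, subset_insert _ _, mem_insert_self _ _, ?_, ?_⟩
    · intro k hk
      obtain ⟨v, hv, hvk⟩ := hI k hk
      exact ⟨v, mem_insert_of_mem hv, hvk⟩
    · have := (hd i v hvi x hx).trans (hdδ i)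
      linarith
  induction w with
  | nil =>
    intro x hx
    obtain ⟨V', l', h1, h2, h3, h4, h5⟩ := base _ hj x hx
    exact ⟨V', l', I, h1, h2, h3, Finset.Subset.refl _, h4, fun k hk => Or.inl hk, by linarith⟩
  | @cons i k j h w ih =>
    intro x hx
    by_cases hi : i ∈ I
    · obtain ⟨V', l', h1, h2, h3, h4, h5⟩ := base _ hi x hx
      exact ⟨V', l', I, h1, h2, h3, Finset.Subset.refl _, h4, fun k hk => Or.inl hk, by linarith⟩
    · rw [SimpleGraph.Walk.cons_isPath_iff] at hw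
      obtain ⟨y, hyi, hyk⟩ := (nerve_adj.1 h).2
      obtain ⟨V', l', I', h1, h2, h3, h4, h5, h6, h7⟩ := ih hw.1 hj y hyk
      refine ⟨insert x V', l' + dist y x, insert i I', h1.step h3 x,
        h2.trans (subset_insert _ _), mem_insert_self _ _, h4.trans (subset_insert _ _), ?_, ?_, ?_⟩
      · intro m hm
        rcases mem_insert.1 hm with rfl | hm
        · exact ⟨x, mem_insert_self _ _, hx⟩
        · obtain ⟨v, hv, hvm⟩ := h5 m hm
          exact ⟨v, mem_insert_of_mem hv, hvm⟩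
      · intro m hm
        rcases mem_insert.1 hm with rfl | hm
        · exact Or.inr (SimpleGraph.Walk.start_mem_support _)
        · rcases h6 m hm with h | h
          · exact Or.inl h
          · right
            rw [SimpleGraph.Walk.support_cons]
            exact List.mem_cons_of_mem _ h
      · have hiI' : i ∉ I' := by
          intro hcon
          rcases h6 i hcon with h | h
          · exact hi h
          · exact hw.2 h
        rw [sum_insert hiI']
        have := hd i y hyi x hx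
        linarith

/-- Networks through finitely many points of a preconnected set covered by small open sets. -/
lemma net_of_cover {E : Type*} [PseudoMetricSpace E] (U : ℕ → Set E) (hU : ∀ n, IsOpen (U n))
    (d : ℕ → ℝ) (δ S : ℝ) (hd0 : ∀ n, 0 ≤ d n)
    (hd : ∀ n, ∀ x ∈ U n, ∀ y ∈ U n, dist x y ≤ d n) (hdδ : ∀ n, d n ≤ δ)
    (hS : ∀ I : Finset ℕ, ∑ i ∈ I, d i ≤ S)
    {K : Set E} (hK : IsPreconnected K) (hcov : K ⊆ ⋃ n, U n) (A : Finset E) (hA : A.Nonempty)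
    (hAK : ∀ x ∈ A, x ∈ K) :
    ∃ (V : Finset E) (l : ℝ), Net V l ∧ A ⊆ V ∧ l ≤ S + A.card * δ := by
  have key : ∀ A : Finset E, A.Nonempty → (∀ x ∈ A, x ∈ K) →
      ∃ (V : Finset E) (l : ℝ) (I : Finset ℕ) (i0 : ℕ), Net V l ∧ A ⊆ V ∧
        (∀ i ∈ I, ∃ v ∈ V, v ∈ U i) ∧ i0 ∈ I ∧ (K ∩ U i0).Nonempty ∧
        l ≤ ∑ i ∈ I, d i + A.card * δ := by
    intro A hA
    induction hA using Finset.Nonempty.cons_induction with
    | singleton x =>
      intro hx
      have hxK := hx x (mem_singleton_self x)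
      obtain ⟨n, hn⟩ := Set.mem_iUnion.1 (hcov hxK)
      have hδ0 : 0 ≤ δ := (hd0 n).trans (hdδ n)
      refine ⟨{x}, 0, {n}, n, Net.single x, Finset.Subset.refl _, ?_, mem_singleton_self _,
        ⟨x, hxK, hn⟩, ?_⟩
      · intro i hi
        rw [mem_singleton] at hi
        exact ⟨x, mem_singleton_self _, hi ▸ hn⟩
      · rw [sum_singleton, card_singleton, Nat.cast_one, one_mul]
        have := hd0 n
        linarith
    | cons x A hx hA ih =>
      intro hxA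
      obtain ⟨V, l, I, i0, h1, h2, h3, h4, h5, h6⟩ :=
        ih (fun y hy => hxA y (mem_cons_of_mem hy))
      have hxK := hxA x (mem_cons_self _ _)
      obtain ⟨n, hn⟩ := Set.mem_iUnion.1 (hcov hxK)
      obtain ⟨w⟩ := nerve_reachable U hU hK hcov (i := n) (j := i0) ⟨x, hxK, hn⟩ h5
      obtain ⟨V', l', I', g1, g2, g3, g4, g5, g6, g7⟩ :=
        attach U d δ hd hdδ h1 I h3 w.toPath.1 w.toPath.2 h4 x hn
      refine ⟨V', l', I', i0, g1, ?_, g5, g4 h4, h5, ?_⟩
      · intro y hy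
        rcases mem_cons.1 hy with rfl | hy
        · exact g3
        · exact g2 (h2 hy)
      · rw [card_cons]
        push_cast
        linarith
  obtain ⟨V, l, I, i0, h1, h2, h3, h4, h5, h6⟩ := key A hA hAK
  exact ⟨V, l, h1, h2, h6.trans (by have := hS I; linarith)⟩

/-- Networks from connected sets of finite one-dimensional Hausdorff measure. -/
theorem exists_net {E : Type*} [MetricSpace E] [MeasurableSpace E] [BorelSpace E]
    {K : Set E} (hK : IsPreconnected K) (A : Finset E) (hA : A.Nonempty) (hAK : ∀ x ∈ A, x ∈ K)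
    (hfin : μH[1] K ≠ ⊤) {η : ℝ} (hη : 0 < η) :
    ∃ (V : Finset E) (l : ℝ), Net V l ∧ A ⊆ V ∧ l ≤ (μH[1] K).toReal + η := by
  have hc : (0 : ℝ) < A.card := by exact_mod_cast hA.card_pos
  obtain ⟨ε, hε⟩ : ∃ ε : ℝ, ε = η / (3 * (A.card + 1)) := ⟨_, rfl⟩
  have hε0 : 0 < ε := by rw [hε]; positivity
  obtain ⟨e, he⟩ : ∃ e : ℝ≥0, (e : ℝ) = ε := ⟨⟨ε, hε0.le⟩, rfl⟩
  have he0 : 0 < e := by rw [← NNReal.coe_pos, he]; exact hε0
  have heE : (e : ℝ≥0∞) ≠ 0 := by
    rw [Ne, ENNReal.coe_eq_zero]; exact he0.ne'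
  -- a cover
  have h1 : (⨅ (t : ℕ → Set E) (_ : K ⊆ ⋃ n, t n) (_ : ∀ n, ediam (t n) ≤ (e : ℝ≥0∞)),
      ∑' n, ⨆ _ : (t n).Nonempty, ediam (t n) ^ (1 : ℝ)) < μH[1] K + e := by
    refine lt_of_le_of_lt ?_ (ENNReal.lt_add_right hfin heE)
    rw [Measure.hausdorffMeasure_apply]
    exact le_iSup₂ (f := fun (r : ℝ≥0∞) (_ : 0 < r) => ⨅ (t : ℕ → Set E) (_ : K ⊆ ⋃ n, t n)
      (_ : ∀ n, ediam (t n) ≤ r), ∑' n, ⨆ _ : (t n).Nonempty, ediam (t n) ^ (1 : ℝ)) (e : ℝ≥0∞)
      (pos_iff_ne_zero.2 heE)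
  simp only [iInf_lt_iff] at h1
  obtain ⟨t, hcov, hdiam, hsum⟩ := h1
  obtain ⟨r, hr0, hrsum⟩ := ENNReal.exists_pos_sum_of_countable heE ℕ
  have hre : ∀ n, (r n : ℝ≥0∞) ≤ e := fun n => (ENNReal.le_tsum n).trans hrsum.le
  set U : ℕ → Set E := fun n => thickening (r n : ℝ) (t n) with hU
  have hUd : ∀ n, ediam (U n) ≤ ediam (t n) + 2 * r n := fun n => ediam_thickening_le (r n)
  have hUfin : ∀ n, ediam (U n) ≠ ⊤ := by
    intro n
    refine ne_top_of_le_ne_top ?_ (hUd n)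
    refine ENNReal.add_ne_top.2 ⟨ne_top_of_le_ne_top ENNReal.coe_ne_top (hdiam n), ?_⟩
    exact ENNReal.mul_ne_top (by norm_num) ENNReal.coe_ne_top
  have hUsum : ∑' n, ediam (U n) ≤ μH[1] K + 3 * e := by
    calc ∑' n, ediam (U n) ≤ ∑' n, ((⨆ _ : (t n).Nonempty, ediam (t n) ^ (1 : ℝ)) + 2 * r n) := by
          apply ENNReal.tsum_le_tsum
          intro n
          refine (hUd n).trans (add_le_add ?_ le_rfl)
          rcases (t n).eq_empty_or_nonempty with h | h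
          · rw [h, ediam_empty]; exact zero_le
          · rw [iSup_pos h, ENNReal.rpow_one]
      _ = (∑' n, ⨆ _ : (t n).Nonempty, ediam (t n) ^ (1 : ℝ)) + 2 * ∑' n, (r n : ℝ≥0∞) := by
          rw [ENNReal.tsum_add, ENNReal.tsum_mul_left]
      _ ≤ (μH[1] K + e) + 2 * e := add_le_add hsum.le (mul_le_mul_right hrsum.le 2)
      _ = μH[1] K + 3 * e := by ring
  have hfin' : μH[1] K + 3 * e ≠ ⊤ :=
    ENNReal.add_ne_top.2 ⟨hfin, ENNReal.mul_ne_top (by norm_num) ENNReal.coe_ne_top⟩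
  obtain ⟨V, l, g1, g2, g3⟩ := net_of_cover U (fun n => isOpen_thickening)
    (fun n => (ediam (U n)).toReal) (3 * ε) ((μH[1] K).toReal + 3 * ε)
    (fun n => ENNReal.toReal_nonneg)
    (fun n x hx y hy => dist_le_diam_of_mem' (hUfin n) hx hy)
    (fun n => by
      have : ediam (U n) ≤ 3 * e := by
        calc _ ≤ _ := hUd n
          _ ≤ (e : ℝ≥0∞) + 2 * e := add_le_add (hdiam n) (mul_le_mul_right (hre n) 2)
          _ = 3 * e := by ring
      have h3 := ENNReal.toReal_mono (ENNReal.mul_ne_top (by norm_num) ENNReal.coe_ne_top) this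
      rw [ENNReal.toReal_mul, ENNReal.coe_toReal, he] at h3
      simpa using h3)
    (fun I => by
      have h3 : ∑ i ∈ I, ediam (U i) ≤ μH[1] K + 3 * e := (ENNReal.sum_le_tsum I).trans hUsum
      have h4 := ENNReal.toReal_mono hfin' h3
      rw [ENNReal.toReal_sum (fun i _ => hUfin i), ENNReal.toReal_add hfin
        (ENNReal.mul_ne_top (by norm_num) ENNReal.coe_ne_top), ENNReal.toReal_mul,
        ENNReal.coe_toReal, he] at h4
      simpa using h4)
    hK (hcov.trans (Set.iUnion_mono fun n => self_subset_thickening (by exact_mod_cast hr0 n) _))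
    A hA hAK
  refine ⟨V, l, g1, g2, g3.trans ?_⟩
  have : (3 : ℝ) * ε + A.card * (3 * ε) = η := by
    rw [hε]; field_simp; ring
  linarith

end Pool.Agent.Helper77.Steiner
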