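import Mathlib

/-!
# The Steiner ratio: definitions
-/

namespace Pool.Agent.Helper77.Steiner

open MeasureTheory ENNReal Classical

/-- Length of the segment joining two points of `A`. -/
noncomputable def edgeLen {E : Type*} [MetricSpace E] (A : Finset E) : Sym2 A → ℝ :=
  Sym2.lift ⟨fun x y => dist (x : E) (y : E), fun _ _ => dist_comm _ _⟩

/-- `L_M(A)`: least total length of a tree with vertex set `A`. -/
noncomputable def mstLen {E : Type*} [MetricSpace E] (A : Finset E) : ℝ :=
  ⨅ T : {T : SimpleGraph A // T.IsTree}, ∑ e ∈ T.1.edgeFinset, edgeLen A e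

/-- `L_S(A)`: infimum of the one-dimensional Hausdorff measure of closed sets `S` such that
`S ∪ A` is connected. -/
noncomputable def steinerLen {E : Type*} [MetricSpace E] [MeasurableSpace E] [BorelSpace E]
    (A : Finset E) : ℝ≥0∞ :=
  ⨅ (S : Set E) (_ : IsClosed S) (_ : IsConnected (S ∪ (A : Set E))), μH[1] S

/-- The Steiner ratio of a space: infimum of `L_S(A) / L_M(A)` over finite sets `A` with at least
two points. -/
noncomputable def steinerRatioOf (E : Type*) [MetricSpace E] [MeasurableSpace E] [BorelSpace E] :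
    ℝ≥0∞ :=
  ⨅ (A : Finset E) (_ : 2 ≤ A.card), steinerLen A / ENNReal.ofReal (mstLen A)

/-- The Steiner ratio `ρ_d` of `ℝ^d`. -/
noncomputable def steinerRatio (d : ℕ) : ℝ≥0∞ := steinerRatioOf (EuclideanSpace ℝ (Fin d))

end Pool.Agent.Helper77.Steiner
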