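import Mathlib
import Pool.Agent.Helper77.ST.Good
import Pool.Agent.Helper77.ST.Defs

/-!
# Greedy construction of levels and of a spanning tree
-/

namespace Pool.Agent.Helper77.Steiner

open Real Finset Classical

variable {ι : Type*} [Fintype ι] {E : Type*} [NormedAddCommGroup E] [InnerProductSpace ℝ E]

/-- Number of classes of a class function. -/
noncomputable def nc (c : ι → ι) : ℕ := (univ.image c).card

theorem greedy (a : ι → E) (len : Sym2 ι → ℝ) (hlen : ∀ x y, len s(x, y) = dist (a x) (a y)) :
    ∀ (n : ℕ) (c : ι → ι) (s : ℝ), nc c = n + 1 →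
      (∀ x y, c x ≠ c y → s ≤ dist (a x) (a y)) →
      ∃ (K : ℕ) (t : ℕ → ℝ) (cls : ℕ → ι → ι) (F : Finset (Sym2 ι)), t 0 = s ∧ Monotone t ∧
        cls 0 = c ∧ (∀ j x y, cls j x = cls j y → cls (j + 1) x = cls (j + 1) y) ∧
        (∀ j, j < K → ∀ x y, cls j x ≠ cls j y → t (j + 1) ≤ dist (a x) (a y)) ∧
        (∀ x y, Relation.ReflTransGen (fun u v => c u = c v ∨ s(u, v) ∈ F) x y) ∧
        ∑ e ∈ F, len e ≤ ∑ j ∈ range K, (t (j + 1) - t j) * ((nc (cls j) : ℝ) - 1) + s * n := by
  intro n
  induction n with
  | zero =>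
    intro c s hc hs
    have hall : ∀ x y, c x = c y := by
      intro x y
      have h1 : (univ.image c).card ≤ 1 := by rw [← nc, hc]
      exact Finset.card_le_one.1 h1 _ (mem_image_of_mem _ (mem_univ _)) _
        (mem_image_of_mem _ (mem_univ _))
    refine ⟨0, fun _ => s, fun _ => c, ∅, rfl, monotone_const, rfl, fun _ _ _ h => h, ?_, ?_, ?_⟩
    · intro j hj
      exact absurd hj (Nat.not_lt_zero _)
    · intro x y
      exact Relation.ReflTransGen.single (Or.inl (hall x y))
    · simp
  | succ n ih =>
    intro c s hc hs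
    -- pairs in different classes
    obtain ⟨P, hP⟩ : ∃ P : Finset (ι × ι), ∀ p, p ∈ P ↔ c p.1 ≠ c p.2 :=
      ⟨univ.filter (fun p => c p.1 ≠ c p.2), fun p => by simp⟩
    have hPne : P.Nonempty := by
      have h1 : 1 < (univ.image c).card := by rw [← nc, hc]; omega
      obtain ⟨u, hu, v, hv, huv⟩ := Finset.one_lt_card.1 h1
      obtain ⟨x, _, rfl⟩ := mem_image.1 hu
      obtain ⟨y, _, rfl⟩ := mem_image.1 hv
      exact ⟨(x, y), (hP _).2 huv⟩
    obtain ⟨⟨x0, y0⟩, hxy0, hmin⟩ := P.exists_min_image (fun p => dist (a p.1) (a p.2)) hPne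
    have hne : c x0 ≠ c y0 := (hP _).1 hxy0
    obtain ⟨d, hd⟩ : ∃ d : ℝ, d = dist (a x0) (a y0) := ⟨_, rfl⟩
    have hsd : s ≤ d := by rw [hd]; exact hs x0 y0 hne
    have hmin' : ∀ x y, c x ≠ c y → d ≤ dist (a x) (a y) := by
      intro x y h
      rw [hd]
      exact hmin (x, y) ((hP _).2 h)
    obtain ⟨c', hc'⟩ : ∃ c' : ι → ι, ∀ z, c' z = if c z = c y0 then c x0 else c z :=
      ⟨_, fun _ => rfl⟩
    have hcc' : ∀ x y, c x = c y → c' x = c' y := by
      intro x y h
      rw [hc', hc', h]
    have hnc : nc c' = n + 1 := by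
      have : univ.image c' = (univ.image c).erase (c y0) := by
        ext z
        rw [mem_erase, mem_image, mem_image]
        constructor
        · rintro ⟨x, _, rfl⟩
          rw [hc']
          split_ifs with h
          · exact ⟨hne, x0, mem_univ _, rfl⟩
          · exact ⟨h, x, mem_univ _, rfl⟩
        · rintro ⟨h1, x, _, rfl⟩
          refine ⟨x, mem_univ _, ?_⟩
          rw [hc', if_neg h1]
      unfold nc at hc ⊢
      rw [this, Finset.card_erase_of_mem (mem_image_of_mem _ (mem_univ _)), hc]
      rfl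
    obtain ⟨K, t, cls, F, ht0, htm, hcls0, hnest, hsep, hconn, hsum⟩ := ih c' d hnc
      (fun x y h => hmin' x y (fun h' => h (hcc' x y h')))
    refine ⟨K + 1, fun j => Nat.casesOn j s t, fun j => Nat.casesOn j c cls,
      insert s(x0, y0) F, rfl, ?_, rfl, ?_, ?_, ?_, ?_⟩
    · apply monotone_nat_of_le_succ
      intro j
      cases j with
      | zero => show s ≤ t 0; rw [ht0]; exact hsd
      | succ j => exact htm (Nat.le_succ j)
    · intro j x y h
      cases j with
      | zero => show cls 0 x = cls 0 y; rw [hcls0]; exact hcc' x y h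
      | succ j => exact hnest j x y h
    · intro j hj x y h
      cases j with
      | zero => show t 0 ≤ _; rw [ht0]; exact hmin' x y h
      | succ j => exact hsep j (by omega) x y h
    · intro x y
      have hstep : ∀ u v, (c' u = c' v ∨ s(u, v) ∈ F) →
          Relation.ReflTransGen (fun u v => c u = c v ∨ s(u, v) ∈ insert s(x0, y0) F) u v := by
        intro u v h
        rcases h with h | h
        · have hx : Relation.ReflTransGen
              (fun u v => c u = c v ∨ s(u, v) ∈ insert s(x0, y0) F) x0 y0 :=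
            Relation.ReflTransGen.single (Or.inr (mem_insert_self _ _))
          have hy : Relation.ReflTransGen
              (fun u v => c u = c v ∨ s(u, v) ∈ insert s(x0, y0) F) y0 x0 :=
            Relation.ReflTransGen.single (Or.inr (by rw [Sym2.eq_swap]; exact mem_insert_self _ _))
          have one : ∀ u v, c u = c v → Relation.ReflTransGen
              (fun u v => c u = c v ∨ s(u, v) ∈ insert s(x0, y0) F) u v :=
            fun u v h => Relation.ReflTransGen.single (Or.inl h)
          rw [hc', hc'] at h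
          split_ifs at h with h1 h2 h2
          · exact one _ _ (h1.trans h2.symm)
          · exact ((one _ _ h1).trans hy).trans (one _ _ h)
          · exact ((one _ _ h).trans hx).trans (one _ _ h2.symm)
          · exact one _ _ h
        · exact Relation.ReflTransGen.single (Or.inr (mem_insert_of_mem h))
      have h := hconn x y
      induction h with
      | refl => exact Relation.ReflTransGen.refl
      | tail _ h2 ih2 => exact ih2.trans (hstep _ _ h2)
    · have h1 : ∑ e ∈ insert s(x0, y0) F, len e ≤ d + ∑ e ∈ F, len e := by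
        by_cases h : s(x0, y0) ∈ F
        · rw [insert_eq_self.2 h]
          have : 0 ≤ d := by rw [hd]; exact dist_nonneg
          linarith
        · rw [sum_insert h, hlen, hd]
      have h2 : ∑ j ∈ range (K + 1), ((fun j => Nat.casesOn j s t : ℕ → ℝ) (j + 1) -
          (fun j => Nat.casesOn j s t : ℕ → ℝ) j) *
          ((nc ((fun j => Nat.casesOn j c cls : ℕ → ι → ι) j) : ℝ) - 1) =
          ∑ j ∈ range K, (t (j + 1) - t j) * ((nc (cls j) : ℝ) - 1) + (t 0 - s) * (nc c - 1) :=
        Finset.sum_range_succ' _ _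
      refine h1.trans ?_
      refine le_trans ?_ (le_of_eq (congrArg (· + s * ((n + 1 : ℕ) : ℝ)) h2.symm))
      show _ ≤ ∑ j ∈ range K, (t (j + 1) - t j) * ((nc (cls j) : ℝ) - 1) + (t 0 - s) * (nc c - 1)
        + s * ((n + 1 : ℕ) : ℝ)
      rw [ht0, hc]
      push_cast
      linarith

/-- Levels and a spanning tree whose length is at most the level sum. -/
theorem exists_lev_tree [Nonempty ι] (a : ι → E) (len : Sym2 ι → ℝ)
    (hlen : ∀ x y, len s(x, y) = dist (a x) (a y)) :
    ∃ (L : Lev a) (T : SimpleGraph ι), T.IsTree ∧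
      ∑ e ∈ T.edgeFinset, len e ≤
        ∑ j ∈ range L.K, (L.t (j + 1) - L.t j) * ((L.ncl j univ : ℝ) - 1) := by
  have hpos : 0 < Fintype.card ι := Fintype.card_pos
  obtain ⟨n, hn⟩ : ∃ n, Fintype.card ι = n + 1 := ⟨Fintype.card ι - 1, by omega⟩
  have hnc : nc (id : ι → ι) = n + 1 := by
    unfold nc
    rw [Finset.image_id, Finset.card_univ, hn]
  obtain ⟨K, t, cls, F, ht0, htm, hcls0, hnest, hsep, hconn, hsum⟩ := greedy a len hlen n id 0 hnc
    (fun x y _ => dist_nonneg)
  refine ⟨⟨K, t, ht0, htm, cls, hnest, hsep⟩, ?_⟩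
  set G : SimpleGraph ι := SimpleGraph.fromEdgeSet (F : Set (Sym2 ι)) with hG
  have hGc : G.Connected := by
    have : G.Preconnected := by
      intro x y
      have h := hconn x y
      induction h with
      | refl => exact SimpleGraph.Reachable.refl _
      | @tail u v _ h2 ih2 =>
        apply ih2.trans
        by_cases huv : u = v
        · rw [huv]
        · have h3 : s(u, v) ∈ F := by
            rcases h2 with h2 | h2
            · exact absurd h2 huv
            · exact h2
          apply SimpleGraph.Adj.reachable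
          rw [hG, SimpleGraph.fromEdgeSet_adj]
          exact ⟨by exact_mod_cast h3, huv⟩
    exact ⟨this⟩
  obtain ⟨T, hTG, hT⟩ := hGc.exists_isTree_le
  refine ⟨T, hT, ?_⟩
  have hsub : T.edgeFinset ⊆ F := by
    intro e he
    rw [SimpleGraph.mem_edgeFinset] at he
    have h1 : e ∈ G.edgeSet := SimpleGraph.edgeSet_mono hTG he
    rw [hG, SimpleGraph.edgeSet_fromEdgeSet] at h1
    exact_mod_cast h1.1
  have hnn : ∀ e, 0 ≤ len e := by
    intro e
    induction e with
    | h x y => rw [hlen]; exact dist_nonneg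
  calc ∑ e ∈ T.edgeFinset, len e ≤ ∑ e ∈ F, len e :=
        sum_le_sum_of_subset_of_nonneg hsub (fun e _ _ => hnn e)
    _ ≤ _ := hsum
    _ = _ := by
        simp only [zero_mul, add_zero]
        rfl

end Pool.Agent.Helper77.Steiner
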