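import Mathlib
import Pool.Agent.Helper77.ST.Ineq
import Pool.Agent.Helper77.ST.Defs

/-!
# Chung-Gilbert trees on regular simplices
-/

namespace Pool.Agent.Helper77.Steiner

open Real Finset MeasureTheory
open scoped ENNReal

/-- Height of the Steiner point over the centroid. -/
noncomputable def ht : ℕ → ℝ
  | 0 => 0
  | k + 1 => √(1 / 2) ^ (k + 1) / √3

/-- Total length of the tree on `2^k` points. -/
noncomputable def tl : ℕ → ℝ
  | 0 => 0
  | k + 1 => 2 * tl k + 2 * (2 * ht (k + 1) - ht k)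

lemma ht_succ (k : ℕ) : ht (k + 1) = √(1 / 2) ^ (k + 1) / √3 := rfl

lemma rhalf_sq : √(1 / 2 : ℝ) ^ 2 = 1 / 2 := Real.sq_sqrt (by norm_num)

lemma rhalf_pos : 0 < √(1 / 2 : ℝ) := Real.sqrt_pos.2 (by norm_num)

lemma rhalf_lt : √(1 / 2 : ℝ) < 1 := by
  rw [Real.sqrt_lt' (by norm_num)]; norm_num

lemma ht_nonneg (k : ℕ) : 0 ≤ ht k := by
  cases k with
  | zero => exact le_rfl
  | succ k => unfold ht; have := rhalf_pos; positivity

lemma ht_le (k : ℕ) : ht k ≤ 2 * ht (k + 1) := by
  cases k with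
  | zero =>
    have := ht_nonneg 1
    show (0 : ℝ) ≤ _
    linarith
  | succ k =>
    rw [ht_succ, ht_succ]
    have h1 := rhalf_pos
    have h2 := rhalf_sq
    have h3 : 1 ≤ 2 * √(1 / 2 : ℝ) := by nlinarith [rhalf_lt]
    rw [pow_succ √(1 / 2 : ℝ) (k + 1), mul_div_assoc', div_le_div_iff_of_pos_right (by positivity)]
    have : 0 < √(1 / 2 : ℝ) ^ (k + 1) := by positivity
    nlinarith

lemma tl_nonneg (k : ℕ) : 0 ≤ tl k := by
  induction k with
  | zero => exact le_rfl
  | succ k ih =>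
    unfold tl
    have := ht_le k
    linarith

/-- The bound on the total length. -/
lemma tl_le (k : ℕ) : tl (k + 1) ≤ √2 * (√3 / (4 - √2)) * 2 ^ (k + 1) := by
  have hlt := sqrt2_lt
  have hgt := sqrt2_gt
  have h2 := sq2
  have h3 : √3 ^ 2 = (3 : ℝ) := Real.sq_sqrt (by norm_num)
  have h3p : 0 < √3 := Real.sqrt_pos.2 (by norm_num)
  have hr : √(1 / 2 : ℝ) = √2 / 2 := by
    rw [Real.sqrt_eq_iff_mul_self_eq (by norm_num) (by positivity)]
    nlinarith
  have h4 : (4 - √2) ≠ 0 := by linarith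
  have h5 : (2 * √2 - 1) ≠ 0 := by linarith
  have key : ∀ k, tl (k + 1) = √2 * (√3 / (4 - √2)) * 2 ^ (k + 1) -
      4 * (√2 - 1) / (4 - √2) * ht (k + 1) := by
    intro k
    induction k with
    | zero =>
      show 2 * tl 0 + 2 * (2 * ht 1 - ht 0) = _
      unfold tl ht
      rw [hr]
      field_simp
      ring_nf
      have e4 : √2 ^ 3 = 2 * √2 := by rw [pow_succ, h2]
      rw [h3]
      nlinarith
    | succ k ih =>
      show 2 * tl (k + 1) + 2 * (2 * ht (k + 1 + 1) - ht (k + 1)) = _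
      rw [ih]
      have e : ht (k + 1) = √2 * ht (k + 1 + 1) := by
        rw [ht_succ, ht_succ, hr, pow_succ (√2 / 2) (k + 1)]
        field_simp
        rw [h2]
      rw [e]
      field_simp
      ring_nf
      rw [h2]
      ring_nf
  rw [key]
  have : 0 ≤ 4 * (√2 - 1) / (4 - √2) * ht (k + 1) := by
    apply mul_nonneg _ (ht_nonneg _)
    apply div_nonneg <;> linarith
  linarith

variable {ι : Type*} {E : Type*} [NormedAddCommGroup E] [InnerProductSpace ℝ E]

lemma isClosed_seg (x y : E) : IsClosed (segment ℝ x y) := by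
  rw [segment_eq_image]
  apply IsCompact.isClosed
  apply isCompact_Icc.image
  fun_prop

lemma isConnected_seg (x y : E) : IsConnected (segment ℝ x y) :=
  ⟨⟨x, left_mem_segment ℝ x y⟩, (convex_segment x y).isPreconnected⟩

/-- Centroid. -/
noncomputable def cen (e : ι → E) (C : Finset ι) : E := (C.card : ℝ)⁻¹ • ∑ i ∈ C, e i

lemma inner_cen (e : ι → E) (C : Finset ι) (x : E) :
    inner ℝ x (cen e C) = (C.card : ℝ)⁻¹ * ∑ i ∈ C, inner ℝ x (e i) := by
  unfold cen
  rw [real_inner_smul_right, inner_sum]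

lemma inner_cen_const (e : ι → E) (C : Finset ι) (hC : C.Nonempty) (x : E) (γ : ℝ)
    (h : ∀ i ∈ C, inner ℝ x (e i) = γ) : inner ℝ x (cen e C) = γ := by
  rw [inner_cen, sum_congr rfl h, sum_const, nsmul_eq_mul]
  have : (C.card : ℝ) ≠ 0 := by exact_mod_cast hC.card_pos.ne'
  field_simp

variable [DecidableEq ι]

lemma inner_e (e : ι → E) (he : Orthonormal ℝ e) (i j : ι) :
    inner ℝ (e i) (e j) = if i = j then (1 : ℝ) else 0 :=
  orthonormal_iff_ite.1 he i j

lemma inner_e_cen (e : ι → E) (he : Orthonormal ℝ e) (C : Finset ι) (i : ι) :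
    inner ℝ (e i) (cen e C) = if i ∈ C then (C.card : ℝ)⁻¹ else 0 := by
  rw [inner_cen]
  simp_rw [inner_e e he]
  rw [Finset.sum_ite_eq]
  split_ifs <;> simp

lemma inner_cen_cen_disj (e : ι → E) (he : Orthonormal ℝ e) (C D : Finset ι)
    (hCD : Disjoint C D) : inner ℝ (cen e C) (cen e D) = (0 : ℝ) := by
  rw [real_inner_comm, inner_cen]
  have : ∑ i ∈ C, inner ℝ (cen e D) (e i) = (0 : ℝ) := by
    apply sum_eq_zero
    intro i hi
    rw [real_inner_comm, inner_e_cen e he, if_neg (Finset.disjoint_left.1 hCD hi)]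
  rw [this, mul_zero]

lemma inner_cen_self (e : ι → E) (he : Orthonormal ℝ e) (C : Finset ι) (hC : C.Nonempty) :
    inner ℝ (cen e C) (cen e C) = (C.card : ℝ)⁻¹ := by
  apply inner_cen_const e C hC
  intro i hi
  rw [real_inner_comm, inner_e_cen e he, if_pos hi]

/-- The geometric step. -/
lemma step_geom (e : ι → E) (he : Orthonormal ℝ e) (C D : Finset ι) (hCD : Disjoint C D) (k : ℕ)
    (hC : C.card = 2 ^ k) (hD : D.card = 2 ^ k) (u : E) (hu : ‖u‖ = 1) (γ : ℝ)
    (huγ : ∀ i ∈ C ∪ D, inner ℝ u (e i) = γ) :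
    ∃ v : E, ‖v‖ = 1 ∧ (∃ γ', ∀ i ∈ C, inner ℝ v (e i) = γ') ∧
      dist (cen e C + ht k • v) (cen e (C ∪ D) + ht (k + 1) • u) = 2 * ht (k + 1) - ht k := by
  have hCne : C.Nonempty := by
    apply Finset.card_pos.1; rw [hC]; positivity
  have hDne : D.Nonempty := by
    apply Finset.card_pos.1; rw [hD]; positivity
  set w : E := cen e D - cen e C with hw
  have hn : (0 : ℝ) < 2 ^ k := by positivity
  have hww : inner ℝ w w = 2 * ((2 : ℝ) ^ k)⁻¹ := by
    rw [hw, inner_sub_left, inner_sub_right, inner_sub_right, inner_cen_self e he C hCne,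
      inner_cen_self e he D hDne, inner_cen_cen_disj e he C D hCD,
      inner_cen_cen_disj e he D C hCD.symm, hC, hD]
    push_cast
    ring
  have huw : inner ℝ u w = (0 : ℝ) := by
    rw [hw, inner_sub_right, inner_cen_const e D hDne u γ
      (fun i hi => huγ i (mem_union_right _ hi)), inner_cen_const e C hCne u γ
      (fun i hi => huγ i (mem_union_left _ hi)), sub_self]
  have hr := rhalf_pos
  have hr2 := rhalf_sq
  have h3 : √3 ^ 2 = (3 : ℝ) := Real.sq_sqrt (by norm_num)
  have h3p : 0 < √3 := Real.sqrt_pos.2 (by norm_num)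
  -- `w = 2 d ŵ` with `d = (√(1/2))^(k+1)`
  set d : ℝ := √(1 / 2) ^ (k + 1) with hd
  have hdp : 0 < d := by positivity
  have hd2 : d ^ 2 = (1 / 2) ^ (k + 1) := by
    rw [hd, ← pow_mul, mul_comm, pow_mul, hr2]
  obtain ⟨wh, hwh⟩ : ∃ wh : E, wh = (2 * d)⁻¹ • w := ⟨_, rfl⟩
  have hwhwh : inner ℝ wh wh = (1 : ℝ) := by
    rw [hwh, real_inner_smul_left, real_inner_smul_right, hww]
    have : ((2 : ℝ) ^ k)⁻¹ = 2 * d ^ 2 := by
      rw [hd2, pow_succ, one_div, inv_pow]; ring
    rw [this]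
    field_simp
  have huwh : inner ℝ u wh = (0 : ℝ) := by
    rw [hwh, real_inner_smul_right, huw, mul_zero]
  have hwdec : w = (2 * d) • wh := by
    rw [hwh, smul_smul, mul_inv_cancel₀ (by positivity), one_smul]
  have huu : inner ℝ u u = (1 : ℝ) := by
    rw [real_inner_self_eq_norm_sq, hu]; norm_num
  have hcomb : ∀ α β : ℝ, ‖α • u + β • wh‖ ^ 2 = α ^ 2 + β ^ 2 := by
    intro α β
    rw [← real_inner_self_eq_norm_sq, inner_add_left, inner_add_right, inner_add_right,
      real_inner_smul_left, real_inner_smul_left, real_inner_smul_left, real_inner_smul_left,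
      real_inner_smul_right, real_inner_smul_right, real_inner_smul_right, real_inner_smul_right,
      huu, hwhwh, real_inner_comm u wh, huwh]
    ring
  refine ⟨(1 / 2 : ℝ) • u + (√3 / 2) • wh, ?_, ?_, ?_⟩
  · have h := hcomb (1 / 2) (√3 / 2)
    have h' : ‖(1 / 2 : ℝ) • u + (√3 / 2) • wh‖ ^ 2 = 1 ^ 2 := by
      rw [h]; nlinarith
    exact (pow_left_inj₀ (norm_nonneg _) zero_le_one two_ne_zero).1 h'
  · refine ⟨(1 / 2) * γ + (√3 / 2) * ((2 * d)⁻¹ * (0 - ((2 : ℝ) ^ k)⁻¹)), ?_⟩
    intro i hi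
    rw [inner_add_left, real_inner_smul_left, real_inner_smul_left, hwh, real_inner_smul_left,
      huγ i (mem_union_left _ hi), hw, inner_sub_left, real_inner_comm (e i) (cen e D),
      real_inner_comm (e i) (cen e C),
      inner_e_cen e he, inner_e_cen e he, if_pos hi, if_neg (Finset.disjoint_left.1 hCD hi), hC]
    push_cast
    ring
  · have hcen : cen e C - cen e (C ∪ D) = -((1 / 2 : ℝ) • w) := by
      have hcard : ((C ∪ D).card : ℝ) = 2 * 2 ^ k := by
        rw [card_union_of_disjoint hCD, hC, hD]; push_cast; ring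
      have e1 : cen e (C ∪ D) = (1 / 2 : ℝ) • (cen e C + cen e D) := by
        unfold cen
        rw [sum_union hCD, hcard, hC, hD]
        push_cast
        rw [← smul_add, smul_smul]
        congr 1
        field_simp
      rw [e1, hw]
      module
    have hd3 : d = √3 * ht (k + 1) := by
      show d = √3 * (√(1 / 2) ^ (k + 1) / √3)
      rw [← hd]
      field_simp
    have e2 : (cen e C + ht k • ((1 / 2 : ℝ) • u + (√3 / 2) • wh)) -
        (cen e (C ∪ D) + ht (k + 1) • u) =
        (ht k / 2 - ht (k + 1)) • u + (√3 * (ht k / 2 - ht (k + 1))) • wh := by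
      have : (cen e C + ht k • ((1 / 2 : ℝ) • u + (√3 / 2) • wh)) -
        (cen e (C ∪ D) + ht (k + 1) • u) = (cen e C - cen e (C ∪ D)) +
        (ht k • ((1 / 2 : ℝ) • u + (√3 / 2) • wh) - ht (k + 1) • u) := by abel
      rw [this, hcen, hwdec, hd3]
      module
    rw [dist_eq_norm, e2]
    have h := hcomb (ht k / 2 - ht (k + 1)) (√3 * (ht k / 2 - ht (k + 1)))
    have hle := ht_le k
    have h' : ‖(ht k / 2 - ht (k + 1)) • u + (√3 * (ht k / 2 - ht (k + 1))) • wh‖ ^ 2 =
        (2 * ht (k + 1) - ht k) ^ 2 := by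
      rw [h, mul_pow, h3]; ring
    exact (pow_left_inj₀ (norm_nonneg _) (by linarith) two_ne_zero).1 h'

variable [MeasurableSpace E] [BorelSpace E]

/-- The trees. -/
theorem exists_tree (e : ι → E) (he : Orthonormal ℝ e) (k : ℕ) : ∀ (C : Finset ι),
    C.card = 2 ^ k → ∀ (u : E), ‖u‖ = 1 → ∀ γ : ℝ, (∀ i ∈ C, inner ℝ u (e i) = γ) →
    ∃ S : Set E, IsClosed S ∧ IsConnected S ∧ (∀ i ∈ C, e i ∈ S) ∧ cen e C + ht k • u ∈ S ∧
      μH[1] S ≤ ENNReal.ofReal (tl k) := by
  induction k with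
  | zero =>
    intro C hC u hu γ hγ
    rw [pow_zero, card_eq_one] at hC
    obtain ⟨i, rfl⟩ := hC
    refine ⟨{e i}, isClosed_singleton, isConnected_singleton, ?_, ?_, ?_⟩
    · intro j hj
      rw [mem_singleton] at hj
      rw [hj]; rfl
    · have : cen e {i} + ht 0 • u = e i := by
        unfold cen ht
        simp
      rw [this]; rfl
    · have : μH[1] ({e i} : Set E) = 0 := by
        have := Measure.nullSingletonClass_hausdorff E (d := 1) one_pos
        exact measure_singleton _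
      rw [this]
      exact zero_le
  | succ k ih =>
    intro P hP u hu γ hγ
    obtain ⟨C, hCP, hC⟩ := Finset.exists_subset_card_eq (s := P) (n := 2 ^ k)
      (by rw [hP, pow_succ]; omega)
    set D := P \ C with hDdef
    have hD : D.card = 2 ^ k := by
      rw [hDdef, card_sdiff_of_subset hCP, hP, hC, pow_succ]; omega
    have hCD : Disjoint C D := disjoint_sdiff
    have hPCD : P = C ∪ D := (union_sdiff_of_subset hCP).symm
    obtain ⟨v, hv, ⟨γ1, hγ1⟩, hdv⟩ := step_geom e he C D hCD k hC hD u hu γ (by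
      rw [← hPCD]; exact hγ)
    obtain ⟨v', hv', ⟨γ2, hγ2⟩, hdv'⟩ := step_geom e he D C hCD.symm k hD hC u hu γ (by
      rw [union_comm, ← hPCD]; exact hγ)
    rw [← hPCD] at hdv
    rw [union_comm, ← hPCD] at hdv'
    obtain ⟨S1, h11, h12, h13, h14, h15⟩ := ih C hC v hv γ1 hγ1
    obtain ⟨S2, h21, h22, h23, h24, h25⟩ := ih D hD v' hv' γ2 hγ2
    set s := cen e P + ht (k + 1) • u with hs
    set s1 := cen e C + ht k • v with hs1
    set s2 := cen e D + ht k • v' with hs2
    refine ⟨(S1 ∪ segment ℝ s1 s) ∪ (S2 ∪ segment ℝ s2 s), ?_, ?_, ?_, ?_, ?_⟩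
    · exact (h11.union (isClosed_seg _ _)).union (h21.union (isClosed_seg _ _))
    · apply IsConnected.union
      · exact ⟨s, Or.inr (right_mem_segment ℝ s1 s), Or.inr (right_mem_segment ℝ s2 s)⟩
      · exact IsConnected.union ⟨s1, h14, left_mem_segment ℝ s1 s⟩ h12 (isConnected_seg _ _)
      · exact IsConnected.union ⟨s2, h24, left_mem_segment ℝ s2 s⟩ h22 (isConnected_seg _ _)
    · intro i hi
      rw [hPCD, mem_union] at hi
      rcases hi with hi | hi
      · exact Or.inl (Or.inl (h13 i hi))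
      · exact Or.inr (Or.inl (h23 i hi))
    · exact Or.inl (Or.inr (right_mem_segment ℝ s1 s))
    · have hn := ht_le k
      have hseg1 : μH[1] (segment ℝ s1 s) = ENNReal.ofReal (2 * ht (k + 1) - ht k) := by
        rw [hausdorffMeasure_segment, edist_dist, hdv]
      have hseg2 : μH[1] (segment ℝ s2 s) = ENNReal.ofReal (2 * ht (k + 1) - ht k) := by
        rw [hausdorffMeasure_segment, edist_dist, hdv']
      calc _ ≤ μH[1] (S1 ∪ segment ℝ s1 s) + μH[1] (S2 ∪ segment ℝ s2 s) := measure_union_le _ _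
        _ ≤ (μH[1] S1 + μH[1] (segment ℝ s1 s)) + (μH[1] S2 + μH[1] (segment ℝ s2 s)) :=
            add_le_add (measure_union_le _ _) (measure_union_le _ _)
        _ ≤ (ENNReal.ofReal (tl k) + ENNReal.ofReal (2 * ht (k + 1) - ht k)) +
            (ENNReal.ofReal (tl k) + ENNReal.ofReal (2 * ht (k + 1) - ht k)) := by
            rw [hseg1, hseg2]
            gcongr
        _ = ENNReal.ofReal (tl (k + 1)) := by
            have h0 := tl_nonneg k
            rw [← ENNReal.ofReal_add h0 (by linarith), ← ENNReal.ofReal_add (by linarith)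
              (by linarith)]
            congr 1
            show _ = 2 * tl k + 2 * (2 * ht (k + 1) - ht k)
            ring

end Pool.Agent.Helper77.Steiner
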