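import Mathlib
import Pool.Agent.Helper77.ST.Kruskal
import Pool.Agent.Helper77.ST.Extract
import Pool.Agent.Helper77.ST.Upper

/-!
# The bounds for the Steiner ratio
-/

namespace Pool.Agent.Helper77.Steiner

open Real Finset MeasureTheory Classical Filter Topology
open scoped ENNReal

section mst

variable {E : Type*} [MetricSpace E]

lemma edgeLen_mk (A : Finset E) (x y : A) : edgeLen A s(x, y) = dist (x : E) (y : E) := rfl

lemma edgeLen_nonneg (A : Finset E) (e : Sym2 A) : 0 ≤ edgeLen A e := by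
  induction e with
  | h x y => rw [edgeLen_mk]; exact dist_nonneg

lemma exists_tree_on (A : Finset E) (hA : A.Nonempty) :
    Nonempty {T : SimpleGraph A // T.IsTree} := by
  have : Nonempty A := hA.to_subtype
  have : (⊤ : SimpleGraph A).Connected := SimpleGraph.connected_top
  obtain ⟨T, _, hT⟩ := this.exists_isTree_le
  exact ⟨⟨T, hT⟩⟩

lemma mstLen_le (A : Finset E) (T : SimpleGraph A) (hT : T.IsTree) :
    mstLen A ≤ ∑ e ∈ T.edgeFinset, edgeLen A e := by
  unfold mstLen
  apply ciInf_le (f := fun T : {T : SimpleGraph A // T.IsTree} =>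
    ∑ e ∈ T.1.edgeFinset, edgeLen A e) _ ⟨T, hT⟩
  refine ⟨0, ?_⟩
  rintro _ ⟨T, rfl⟩
  exact sum_nonneg fun e _ => edgeLen_nonneg A e

lemma le_mstLen (A : Finset E) (hA : A.Nonempty) (m : ℝ)
    (hm : ∀ x ∈ A, ∀ y ∈ A, x ≠ y → m ≤ dist x y) : (A.card - 1) * m ≤ mstLen A := by
  have := exists_tree_on A hA
  unfold mstLen
  apply le_ciInf
  rintro ⟨T, hT⟩
  have hcard := hT.card_edgeFinset
  rw [Fintype.card_coe] at hcard
  have h1 : ∀ e ∈ T.edgeFinset, m ≤ edgeLen A e := by
    intro e he
    induction e with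
    | h x y =>
      rw [SimpleGraph.mem_edgeFinset, SimpleGraph.mem_edgeSet] at he
      rw [edgeLen_mk]
      exact hm x x.2 y y.2 (fun h => he.ne (Subtype.ext h))
  have h2 := Finset.card_nsmul_le_sum _ _ _ h1
  rw [nsmul_eq_mul] at h2
  have h3 : (T.edgeFinset.card : ℝ) = A.card - 1 := by
    rw [← hcard]; push_cast; ring
  rw [h3] at h2
  exact h2

lemma mstLen_pos (A : Finset E) (hA : 2 ≤ A.card) : 0 < mstLen A := by
  have hne : A.offDiag.Nonempty := by
    rw [← Finset.card_pos, Finset.offDiag_card]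
    have : A.card < A.card * A.card := by nlinarith
    omega
  have hAne : A.Nonempty := Finset.card_pos.1 (by omega)
  obtain ⟨⟨x, y⟩, hxy, hmin⟩ := A.offDiag.exists_min_image (fun p => dist p.1 p.2) hne
  rw [mem_offDiag] at hxy
  have h := le_mstLen A hAne (dist x y) (fun u hu v hv huv =>
    hmin (u, v) (mem_offDiag.2 ⟨hu, hv, huv⟩))
  have hpos : 0 < dist x y := dist_pos.2 hxy.2.2
  have hc : (2 : ℝ) ≤ A.card := by exact_mod_cast hA
  have : 0 < (A.card - 1) * dist x y := mul_pos (by linarith) hpos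
  linarith

end mst

section lower

variable {E : Type*} [NormedAddCommGroup E] [InnerProductSpace ℝ E] [MeasurableSpace E]
  [BorelSpace E]

/-- `L_M(A) ≤ c L_S(A)`. -/
theorem mstLen_le_measure (A : Finset E) (hA : A.Nonempty) (S : Set E)
    (hS : IsConnected (S ∪ (A : Set E))) (hfin : μH[1] S ≠ ⊤) :
    mstLen A ≤ cst * (μH[1] S).toReal := by
  have : Nonempty A := hA.to_subtype
  have hA0 : μH[1] (A : Set E) = 0 := by
    have := Measure.nullSingletonClass_hausdorff E (d := 1) one_pos
    exact A.finite_toSet.measure_zero _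
  have hSA : μH[1] (S ∪ (A : Set E)) ≤ μH[1] S := by
    refine (measure_union_le _ _).trans ?_
    rw [hA0, add_zero]
  have hSAfin : μH[1] (S ∪ (A : Set E)) ≠ ⊤ := ne_top_of_le_ne_top hfin hSA
  have hc := cst_pos
  apply le_of_forall_pos_le_add
  intro ε hε
  obtain ⟨V, l, hN, hAV, hl⟩ := exists_net hS.isPreconnected A hA
    (fun x hx => Or.inr (by exact_mod_cast hx)) hSAfin (η := ε / cst) (by positivity)
  obtain ⟨L, T, hT, hsum⟩ := exists_lev_tree (fun x : A => (x : E)) (edgeLen A)
    (fun x y => rfl)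
  have h1 := mstLen_le A T hT
  have h2 := @Lev.net_lower A _ (fun a b => Classical.propDecidable (a = b)) E _ _
    (fun x : A => (x : E)) L _ V l hN (fun x => hAV x.2)
  have h3 : (μH[1] (S ∪ (A : Set E))).toReal ≤ (μH[1] S).toReal := ENNReal.toReal_mono hfin hSA
  calc mstLen A ≤ cst * l := by
        exact h1.trans (hsum.trans h2)
    _ ≤ cst * ((μH[1] S).toReal + ε / cst) :=
        mul_le_mul_of_nonneg_left (by linarith) hc.le
    _ = cst * (μH[1] S).toReal + ε := by
        field_simp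

theorem le_steinerRatioOf :
    ENNReal.ofReal (√3 / (4 - √2)) ≤ steinerRatioOf E := by
  unfold steinerRatioOf
  refine le_iInf₂ fun A hA => ?_
  have hAne : A.Nonempty := Finset.card_pos.1 (by omega)
  have hpos := mstLen_pos A hA
  rw [ENNReal.le_div_iff_mul_le (Or.inl (by simpa using hpos)) (Or.inl ENNReal.ofReal_ne_top)]
  unfold steinerLen
  refine le_iInf fun S => le_iInf₂ fun _ hS => ?_
  by_cases hfin : μH[1] S = ⊤
  · rw [hfin]; exact le_top
  · have h := mstLen_le_measure A hAne S hS hfin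
    have hlt := sqrt2_lt
    have h3p : 0 < √3 := Real.sqrt_pos.2 (by norm_num)
    rw [← ENNReal.ofReal_mul (by apply div_nonneg <;> linarith)]
    apply ENNReal.ofReal_le_of_le_toReal
    unfold cst at h
    rw [div_mul_eq_mul_div, div_le_iff₀ (by linarith)]
    rw [div_mul_eq_mul_div, le_div_iff₀ h3p] at h
    linarith

end lower

section upper

variable {E : Type*} [NormedAddCommGroup E] [InnerProductSpace ℝ E] [MeasurableSpace E]
  [BorelSpace E]

/-- Upper bound from a regular simplex with `2^(k+1)` vertices. -/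
theorem steinerRatioOf_le {ι : Type*} (e : ι → E) (he : Orthonormal ℝ e) (k : ℕ) (C : Finset ι)
    (hC : C.card = 2 ^ (k + 1)) :
    steinerRatioOf E ≤
      ENNReal.ofReal (√3 / (4 - √2) * (2 ^ (k + 1) / (2 ^ (k + 1) - 1))) := by
  have hinj : Function.Injective e := he.linearIndependent.injective
  set A : Finset E := C.image e with hAdef
  have hcard : A.card = 2 ^ (k + 1) := by
    rw [hAdef, card_image_of_injective _ hinj, hC]
  have h2 : 2 ≤ 2 ^ (k + 1) := by
    rw [pow_succ]; have := Nat.one_le_two_pow (n := k); omega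
  have hA2 : 2 ≤ A.card := by rw [hcard]; exact h2
  have h2r : (2 : ℝ) ≤ 2 ^ (k + 1) := by exact_mod_cast h2
  have hAne : A.Nonempty := Finset.card_pos.1 (by omega)
  have hCne : C.Nonempty := Finset.card_pos.1 (by omega)
  -- the tree
  have hn : (0 : ℝ) < 2 ^ (k + 1) := by positivity
  set r : ℝ := √(2 ^ (k + 1)) with hr
  have hrpos : 0 < r := Real.sqrt_pos.2 hn
  have hr2 : r ^ 2 = 2 ^ (k + 1) := Real.sq_sqrt hn.le
  have hu : ‖r • cen e C‖ = 1 := by
    have h : ‖r • cen e C‖ ^ 2 = 1 ^ 2 := by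
      rw [← real_inner_self_eq_norm_sq, real_inner_smul_left, real_inner_smul_right,
        inner_cen_self e he C hCne, hC]
      push_cast
      rw [← hr2]
      field_simp
    exact (pow_left_inj₀ (norm_nonneg _) zero_le_one two_ne_zero).1 h
  obtain ⟨S, h1, h2', h3, h4, h5⟩ := exists_tree e he (k + 1) C hC (r • cen e C) hu
    (r * (C.card : ℝ)⁻¹) (by
      intro i hi
      rw [real_inner_smul_left, real_inner_comm, inner_e_cen e he, if_pos hi])
  have hAS : (A : Set E) ⊆ S := by
    intro x hx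
    rw [hAdef, Finset.coe_image] at hx
    obtain ⟨i, hi, rfl⟩ := hx
    exact h3 i (by exact_mod_cast hi)
  have hSA : S ∪ (A : Set E) = S := Set.union_eq_left.2 hAS
  have hst : steinerLen A ≤ ENNReal.ofReal (√2 * (√3 / (4 - √2)) * 2 ^ (k + 1)) := by
    unfold steinerLen
    refine (iInf_le_of_le S (iInf₂_le_of_le h1 (by rw [hSA]; exact h2') h5)).trans ?_
    exact ENNReal.ofReal_le_ofReal (tl_le k)
  have hmst : (2 ^ (k + 1) - 1) * √2 ≤ mstLen A := by
    have h := le_mstLen A hAne √2 (by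
      intro x hx y hy hxy
      rw [hAdef, mem_image] at hx hy
      obtain ⟨i, _, rfl⟩ := hx
      obtain ⟨j, _, rfl⟩ := hy
      have hij : i ≠ j := fun h => hxy (by rw [h])
      rw [dist_eq_norm]
      apply Real.sqrt_le_iff.2 ⟨norm_nonneg _, _⟩
      rw [← real_inner_self_eq_norm_sq, inner_sub_left, inner_sub_right, inner_sub_right,
        inner_e e he, inner_e e he, inner_e e he, inner_e e he, if_pos rfl, if_neg hij,
        if_neg hij.symm, if_pos rfl]
      norm_num)
    rw [hcard] at h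
    exact_mod_cast h
  unfold steinerRatioOf
  refine (iInf₂_le A hA2).trans ?_
  have hlt := sqrt2_lt
  have h2p : 0 < √2 := Real.sqrt_pos.2 (by norm_num)
  have h3p : 0 < √3 := Real.sqrt_pos.2 (by norm_num)
  have hpos : 0 < (2 ^ (k + 1) - 1) * √2 := mul_pos (by linarith) h2p
  calc steinerLen A / ENNReal.ofReal (mstLen A) ≤
      ENNReal.ofReal (√2 * (√3 / (4 - √2)) * 2 ^ (k + 1)) /
        ENNReal.ofReal ((2 ^ (k + 1) - 1) * √2) :=
        ENNReal.div_le_div hst (ENNReal.ofReal_le_ofReal hmst)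
    _ = ENNReal.ofReal (√2 * (√3 / (4 - √2)) * 2 ^ (k + 1) / ((2 ^ (k + 1) - 1) * √2)) := by
        rw [ENNReal.ofReal_div_of_pos hpos]
    _ = _ := by
        congr 1
        have : (2 : ℝ) ^ (k + 1) - 1 ≠ 0 := by linarith
        field_simp

lemma tendsto_bound :
    Tendsto (fun k : ℕ => ENNReal.ofReal (√3 / (4 - √2) * (2 ^ (k + 1) / (2 ^ (k + 1) - 1))))
      atTop (𝓝 (ENNReal.ofReal (√3 / (4 - √2)))) := by
  apply ENNReal.tendsto_ofReal
  have h1 : Tendsto (fun k : ℕ => (2 : ℝ) ^ (k + 1) / (2 ^ (k + 1) - 1)) atTop (𝓝 1) := by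
    have h2 : Tendsto (fun k : ℕ => 1 + ((2 : ℝ) ^ (k + 1) - 1)⁻¹) atTop (𝓝 (1 + 0)) := by
      apply Tendsto.const_add
      apply Tendsto.inv_tendsto_atTop
      apply tendsto_atTop_add_const_right
      exact (tendsto_add_atTop_iff_nat 1).2 (tendsto_pow_atTop_atTop_of_one_lt (by norm_num))
    rw [add_zero] at h2
    refine h2.congr fun k => ?_
    have h3 : (1 : ℝ) < 2 ^ (k + 1) := one_lt_pow₀ (by norm_num) (by omega)
    have : (2 : ℝ) ^ (k + 1) - 1 ≠ 0 := by linarith
    field_simp
    ring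
  simpa using h1.const_mul (√3 / (4 - √2))

/-- Infinite-dimensional spaces. -/
theorem steinerRatioOf_eq (h : ∀ n : ℕ, ∃ e : Fin n → E, Orthonormal ℝ e) :
    steinerRatioOf E = ENNReal.ofReal (√3 / (4 - √2)) := by
  apply le_antisymm _ le_steinerRatioOf
  apply ge_of_tendsto tendsto_bound
  apply Eventually.of_forall
  intro k
  obtain ⟨e, he⟩ := h (2 ^ (k + 1))
  exact steinerRatioOf_le e he k univ (by rw [card_univ, Fintype.card_fin])

end upper

lemma exists_orthonormal {E : Type*} [NormedAddCommGroup E] [InnerProductSpace ℝ E]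
    (h : ¬ FiniteDimensional ℝ E) (n : ℕ) : ∃ e : Fin n → E, Orthonormal ℝ e := by
  have h1 : ∃ v : Fin n → E, LinearIndependent ℝ v := by
    rw [FiniteDimensional, ← Module.rank_lt_aleph0_iff, not_lt] at h
    exact exists_linearIndependent_of_le_rank ((Cardinal.natCast_lt_aleph0 (n := n)).le.trans h)
  obtain ⟨v, hv⟩ := h1
  exact ⟨_, InnerProductSpace.gramSchmidtNormed_orthonormal hv⟩

theorem steinerRatio_tendsto :
    Tendsto steinerRatio atTop (𝓝 (ENNReal.ofReal (√3 / (4 - √2)))) := by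
  rw [tendsto_order]
  constructor
  · intro a ha
    apply Eventually.of_forall
    intro d
    exact ha.trans_le le_steinerRatioOf
  · intro b hb
    obtain ⟨k, hk⟩ := ((tendsto_order.1 tendsto_bound).2 b hb).exists
    filter_upwards [eventually_ge_atTop (2 ^ (k + 1))] with d hd
    obtain ⟨C, _, hC⟩ := Finset.exists_subset_card_eq (s := (univ : Finset (Fin d)))
      (n := 2 ^ (k + 1)) (by rw [card_univ, Fintype.card_fin]; exact hd)
    exact (steinerRatioOf_le _ (EuclideanSpace.basisFun (Fin d) ℝ).orthonormal k C hC).trans_lt hk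

end Pool.Agent.Helper77.Steiner
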